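import Mathlib

/-!
# Dirichlet eigenfunctions of `-u'' + V u` on an interval
-/

set_option autoImplicit false

open Set MeasureTheory

namespace Pool.Agent.Lib.MP_490a28_an

/-- `u` satisfies `-u'' + V u = lam u` in `(a, b)` and the Dirichlet conditions: it is continuous
on `[a, b]`, zero at `a` and at `b`, and twice differentiable in `(a, b)`. -/
def IsDirichletSolution (V : ℝ → ℝ) (a b lam : ℝ) (u : ℝ → ℝ) : Prop :=
  ContinuousOn u (Icc a b) ∧ u a = 0 ∧ u b = 0 ∧
    ∃ u' u'' : ℝ → ℝ, ∀ x ∈ Ioo a b,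
      HasDerivAt u (u' x) x ∧ HasDerivAt u' (u'' x) x ∧ -u'' x + V x * u x = lam * u x

/-- The sequence `u 0, u 1, ...` is an admissible eigenbasis: an orthonormal basis of `L²(a, b)`
made of Dirichlet eigenfunctions of `-u'' + V u`, listed with nondecreasing eigenvalues `lam j`.
(Completeness: every square integrable function orthogonal to all `u j` vanishes almost
everywhere.) The index `j` here is the index `j + 1` of the usual enumeration. -/
structure IsAdmissibleEigenbasis (V : ℝ → ℝ) (a b : ℝ) (u : ℕ → ℝ → ℝ) (lam : ℕ → ℝ) : Prop where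
  monotone : Monotone lam
  solution : ∀ j, IsDirichletSolution V a b (lam j) (u j)
  orthonormal : ∀ i j, ∫ x in Ioo a b, u i x * u j x = if i = j then 1 else 0
  complete : ∀ f : ℝ → ℝ, MemLp f 2 (volume.restrict (Ioo a b)) →
    (∀ j, ∫ x in Ioo a b, f x * u j x = 0) → f =ᵐ[volume.restrict (Ioo a b)] 0

/-- The mean of the potential in the state `u`. -/
noncomputable def potentialMean (V : ℝ → ℝ) (a b : ℝ) (u : ℝ → ℝ) : ℝ :=
  ∫ x in Ioo a b, V x * u x ^ 2

end Pool.Agent.Lib.MP_490a28_an
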