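import Pool.Agent.Lib.MP_490a28_an.Perturb

set_option autoImplicit false

open Set Filter Topology

set_option linter.unusedSectionVars false

namespace Pool.Agent.Lib.MP_490a28_an

variable {H : Type*} [NormedAddCommGroup H] [InnerProductSpace ℝ H] [CompleteSpace H]

theorem nu_pos (k : ℕ) : 0 < nu k := by unfold nu; positivity

theorem one_le_nu (k : ℕ) : 1 ≤ nu k := by
  unfold nu
  have : (0 : ℝ) ≤ k := Nat.cast_nonneg k
  nlinarith

theorem nu_mono {i k : ℕ} (h : i ≤ k) : nu i ≤ nu k := by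
  rcases eq_or_lt_of_le h with h | h
  · rw [h]
  · have := nu_gap h; linarith

section

variable (e : HilbertBasis ℕ ℝ H) (Gr : H →L[ℝ] H)
  (hG : ∀ x k, nu k * inner ℝ (Gr x) (e k) = inner ℝ x (e k))

include hG

theorem G_coeff (x : H) (k : ℕ) : inner ℝ (Gr x) (e k) = inner ℝ x (e k) / nu k := by
  rw [eq_div_iff (nu_pos k).ne', mul_comm]
  exact hG x k

theorem G_symm (x y : H) : inner ℝ (Gr x) y = inner ℝ x (Gr y) := by
  have h1 := e.hasSum_inner_mul_inner (Gr x) y
  have h2 := e.hasSum_inner_mul_inner x (Gr y)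
  have h3 : (fun i => inner ℝ (Gr x) (e i) * inner ℝ (e i) y)
      = fun i => inner ℝ x (e i) * inner ℝ (e i) (Gr y) := by
    funext i
    rw [G_coeff e Gr hG, real_inner_comm (Gr y), G_coeff e Gr hG, real_inner_comm y (e i)]
    ring
  rw [h3] at h1
  exact h1.unique h2

theorem G_norm_le (x : H) : ‖Gr x‖ ≤ ‖x‖ := by
  have h1 := parseval e (Gr x)
  have h2 := parseval e x
  have h3 : ‖Gr x‖ ^ 2 ≤ ‖x‖ ^ 2 := by
    refine hasSum_le (fun k => ?_) h1 h2
    rw [G_coeff e Gr hG, div_pow]
    refine div_le_self (sq_nonneg _) ?_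
    have := one_le_nu k
    nlinarith
  exact (pow_le_pow_iff_left₀ (norm_nonneg _) (norm_nonneg _) two_ne_zero).mp h3

/-- The finite rank truncations. -/
noncomputable def Ftrunc (e : HilbertBasis ℕ ℝ H) (n : ℕ) : H →L[ℝ] H :=
  ∑ k ∈ Finset.range n, (1 / nu k) • (innerSL ℝ (e k)).smulRight (e k)

omit hG in
theorem Ftrunc_coeff (n : ℕ) (x : H) (i : ℕ) :
    inner ℝ (Ftrunc e n x) (e i) = if i < n then inner ℝ x (e i) / nu i else 0 := by
  unfold Ftrunc
  rw [sum_apply, sum_inner]
  have h : ∀ k ∈ Finset.range n, inner ℝ (((1 / nu k) • (innerSL ℝ (e k)).smulRight (e k)) x) (e i)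
      = if i = k then inner ℝ x (e i) / nu i else 0 := by
    intro k _
    simp only [smul_apply, ContinuousLinearMap.smulRight_apply,
      innerSL_apply_apply, inner_smul_left]
    have ho := (orthonormal_iff_ite.mp e.orthonormal) k i
    rw [ho]
    by_cases hik : i = k
    · subst hik
      simp [real_inner_comm]
      ring
    · simp [hik, Ne.symm hik]
  rw [Finset.sum_congr rfl h, Finset.sum_ite_eq]
  simp

omit hG in
theorem Ftrunc_compact (n : ℕ) : IsCompactOperator (Ftrunc e n) := by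
  unfold Ftrunc
  induction n with
  | zero => simpa using isCompactOperator_zero
  | succ n ih =>
    rw [Finset.sum_range_succ]
    refine IsCompactOperator.add ih ?_
    refine IsCompactOperator.smul ?_ _
    have h1 : IsCompactOperator (innerSL ℝ (e n) : H →L[ℝ] ℝ) :=
      isCompactOperator_of_locallyCompactSpace_dom (innerSL ℝ (e n) : H →L[ℝ] ℝ)
    exact h1.clm_comp (ContinuousLinearMap.toSpanSingleton ℝ (e n))

theorem G_compact : IsCompactOperator Gr := by
  have hlim : Tendsto (Ftrunc e) atTop (𝓝 Gr) := by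
    rw [tendsto_iff_norm_sub_tendsto_zero]
    have hbd : ∀ n : ℕ, ‖Ftrunc e n - Gr‖ ≤ 1 / ((n : ℝ) + 1) := by
      intro n
      refine ContinuousLinearMap.opNorm_le_bound _ (by positivity) fun x => ?_
      have h1 := parseval e ((Ftrunc e n - Gr) x)
      have h2 := (parseval e x).mul_left ((1 / ((n : ℝ) + 1)) ^ 2)
      have h3 : ‖(Ftrunc e n - Gr) x‖ ^ 2 ≤ (1 / ((n : ℝ) + 1)) ^ 2 * ‖x‖ ^ 2 := by
        refine hasSum_le (fun k => ?_) h1 h2
        rw [sub_apply, inner_sub_left, Ftrunc_coeff, G_coeff e Gr hG]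
        by_cases hk : k < n
        · rw [if_pos hk, sub_self, zero_pow two_ne_zero]
          positivity
        · rw [if_neg hk, zero_sub, neg_sq, div_pow, div_pow, one_pow, div_eq_mul_one_div, mul_comm]
          gcongr
          push Not at hk
          have h4 : (n : ℝ) ≤ k := by exact_mod_cast hk
          have h5 : (0 : ℝ) ≤ n := Nat.cast_nonneg n
          unfold nu
          nlinarith
      have h4 : ‖(Ftrunc e n - Gr) x‖ ^ 2 ≤ (1 / ((n : ℝ) + 1) * ‖x‖) ^ 2 := by
        rw [mul_pow]; exact h3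
      exact (pow_le_pow_iff_left₀ (norm_nonneg _) (by positivity) two_ne_zero).mp h4
    exact squeeze_zero (fun n => norm_nonneg _) hbd tendsto_one_div_add_atTop_nhds_zero_nat
  exact isCompactOperator_of_tendsto hlim (Eventually.of_forall fun n => Ftrunc_compact e n)

/-- Spectral resolution of the perturbed operator. -/
theorem abstract_spectral (M : H →L[ℝ] H) (hMs : ∀ x y, inner ℝ (M x) y = inner ℝ x (M y)) {δ : ℝ}
    (hδ0 : 0 ≤ δ) (hδ1 : δ ≤ 1 / 2) (hM : ∀ x, ‖M x‖ ≤ δ * ‖x‖) :
    ∃ (v : ℕ → H) (lam : ℕ → ℝ), Monotone lam ∧ Orthonormal ℝ v ∧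
      (∀ x, (∀ j, inner ℝ (v j) x = 0) → x = 0) ∧ ∀ j, v j = Gr (lam j • v j - M (v j)) := by
  -- the resolvent
  let N : H →L[ℝ] H := Gr.comp M
  have hN : ‖N‖ < 1 := by
    have : ‖N‖ ≤ δ := ContinuousLinearMap.opNorm_le_bound _ hδ0 fun x =>
      (G_norm_le e Gr hG (M x)).trans (hM x)
    linarith
  have hunit : IsUnit (1 + N) := by
    have := isUnit_one_sub_of_norm_lt_one (x := -N) (by rwa [norm_neg])
    rwa [sub_neg_eq_add] at this
  obtain ⟨U, hU⟩ := hunit
  let R : H →L[ℝ] H := ((U⁻¹ : (H →L[ℝ] H)ˣ) : H →L[ℝ] H)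
  have hRU : ∀ x, R x + N (R x) = x := by
    intro x
    have h1 : (1 + N) * R = 1 := by rw [← hU]; exact U.mul_inv
    have := congrArg (fun A : H →L[ℝ] H => A x) h1
    simpa using this
  let T : H →L[ℝ] H := R.comp Gr
  have hT : ∀ x, T x = Gr (x - M (T x)) := by
    intro x
    have h1 := hRU (Gr x)
    have h2 : N (R (Gr x)) = Gr (M (T x)) := rfl
    rw [map_sub]
    exact eq_sub_of_add_eq h1
  have hTs : (T : H →ₗ[ℝ] H).IsSymmetric := by
    intro x y
    show inner ℝ (T x) y = inner ℝ x (T y)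
    have hx := hT x
    have hy : Gr y = T y + Gr (M (T y)) := by
      have := hT y
      rw [map_sub] at this
      exact eq_add_of_sub_eq this.symm
    calc inner ℝ (T x) y = inner ℝ (Gr (x - M (T x))) y := by rw [← hx]
      _ = inner ℝ (x - M (T x)) (Gr y) := G_symm e Gr hG _ _
      _ = inner ℝ (x - M (T x)) (T y) + inner ℝ (x - M (T x)) (Gr (M (T y))) := by
          rw [hy, inner_add_right]
      _ = inner ℝ (x - M (T x)) (T y) + inner ℝ (Gr (x - M (T x))) (M (T y)) := by
          rw [G_symm e Gr hG (x - M (T x))]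
      _ = inner ℝ x (T y) := by
          rw [← hx, inner_sub_left, hMs (T x)]; ring
  have hTc : IsCompactOperator T := (G_compact e Gr hG).clm_comp R
  -- eigenvectors
  have heig : ∀ (μ : ℝ) (x : H), T x = μ • x → x ≠ 0 → μ ≠ 0 ∧ x = Gr (μ⁻¹ • x - M x) := by
    intro μ x hx hx0
    have h1 := hT x
    have hμ : μ ≠ 0 := by
      intro hμ
      rw [hμ, zero_smul] at hx
      rw [hx, map_zero, sub_zero] at h1
      apply hx0
      have h2 : ∀ k, inner ℝ x (e k) = 0 := fun k => by
        rw [← hG x k, ← h1, inner_zero_left, mul_zero]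
      have h3 := parseval e x
      simp only [h2] at h3
      have h4 : ‖x‖ ^ 2 = 0 := h3.unique (by simp)
      exact norm_eq_zero.mp (pow_eq_zero_iff two_ne_zero |>.mp h4)
    refine ⟨hμ, ?_⟩
    rw [hx] at h1
    have h2 : μ⁻¹ • (μ • x) = μ⁻¹ • Gr (x - M (μ • x)) := by rw [← h1]
    rw [smul_smul, inv_mul_cancel₀ hμ, one_smul, ← map_smul, smul_sub, map_smul M, smul_smul,
      inv_mul_cancel₀ hμ, one_smul] at h2
    exact h2
  have hcoef : ∀ (lam : ℝ) (x : H), x = Gr (lam • x - M x) →
      ∀ k, (lam - nu k) * inner ℝ x (e k) = inner ℝ (M x) (e k) := by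
    intro lam x hx k
    have h1 := hG (lam • x - M x) k
    rw [← hx, inner_sub_left, inner_smul_left] at h1
    simp only [conj_trivial] at h1
    linarith
  -- a Hilbert basis of eigenvectors
  have hfin : ∀ μ : ℝ, FiniteDimensional ℝ (Module.End.eigenspace (T : Module.End ℝ H) μ) := by
    intro μ
    by_cases hμ : μ = 0
    · have : Module.End.eigenspace (T : Module.End ℝ H) μ = ⊥ := by
        rw [Submodule.eq_bot_iff]
        intro x hx
        rw [Module.End.mem_eigenspace_iff] at hx
        by_contra hx0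
        exact (heig μ x hx hx0).1 hμ
      rw [this]
      infer_instance
    · exact ContinuousLinearMap.finite_dimensional_eigenspace hTc μ hμ
  let ι := Σ μ : ℝ, Fin (Module.finrank ℝ (Module.End.eigenspace (T : Module.End ℝ H) μ))
  let b : ι → H := fun i => ((stdOrthonormalBasis ℝ
    (Module.End.eigenspace (T : Module.End ℝ H) i.1)) i.2 : H)
  have hbo : Orthonormal ℝ b :=
    hTs.orthogonalFamily_eigenspaces.orthonormal_sigma_orthonormal
      (fun μ => (stdOrthonormalBasis ℝ (Module.End.eigenspace (T : Module.End ℝ H) μ)).orthonormal)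
  have hbT : ∀ i : ι, T (b i) = i.1 • b i := fun i =>
    Module.End.mem_eigenspace_iff.mp ((stdOrthonormalBasis ℝ
      (Module.End.eigenspace (T : Module.End ℝ H) i.1)) i.2).2
  have hbsp : (Submodule.span ℝ (Set.range b))ᗮ = ⊥ := by
    have h1 := ContinuousLinearMap.orthogonalComplement_iSup_eigenspaces_eq_bot hTc hTs
    rw [eq_bot_iff, ← h1]
    refine Submodule.orthogonal_le ?_
    refine iSup_le fun μ => ?_
    intro x hx
    have h2 := (stdOrthonormalBasis ℝ (Module.End.eigenspace (T : Module.End ℝ H) μ)).sum_repr ⟨x, hx⟩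
    have h3 := congrArg (Subtype.val) h2
    simp only [Submodule.coe_sum, Submodule.coe_smul] at h3
    rw [← h3]
    refine Submodule.sum_mem _ fun i _ => Submodule.smul_mem _ _ (Submodule.subset_span ?_)
    exact ⟨⟨μ, i⟩, rfl⟩
  let bb : HilbertBasis ι ℝ H := HilbertBasis.mkOfOrthogonalEqBot hbo hbsp
  have hbb : ∀ i, bb i = b i := fun i => by
    show (HilbertBasis.mkOfOrthogonalEqBot hbo hbsp : ι → H) i = b i
    rw [HilbertBasis.coe_mkOfOrthogonalEqBot]
  have hb1 : ∀ i, ‖b i‖ = 1 := hbo.1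
  have hb0 : ∀ i, b i ≠ 0 := fun i h0 => by
    have := hb1 i
    rw [h0, norm_zero] at this
    exact zero_ne_one this
  let L : ι → ℝ := fun i => (i.1)⁻¹
  have hbG : ∀ i, b i = Gr (L i • b i - M (b i)) := fun i => (heig i.1 (b i) (hbT i) (hb0 i)).2
  have hbc : ∀ i k, (L i - nu k) * inner ℝ (b i) (e k) = inner ℝ (M (b i)) (e k) :=
    fun i => hcoef _ _ (hbG i)
  have hMb : ∀ i, ‖M (b i)‖ ≤ δ := fun i => by
    have := hM (b i)
    rwa [hb1, mul_one] at this
  have he1 : ∀ j, ‖e j‖ = 1 := e.orthonormal.1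
  -- every `nu k` is near some `L i`
  have hex : ∀ k, ∃ i, |L i - nu k| ≤ δ := by
    intro k
    refine exists_small bb hδ0 (x := e k) ?_ (w := M (e k)) (hM _) (t := fun i => L i - nu k) ?_
    · intro h0
      have := he1 k
      rw [h0, norm_zero] at this
      exact zero_ne_one this
    · intro i
      rw [hbb, real_inner_comm, hbc, hMs, real_inner_comm]
  have hex2 : ∀ i, ∃ k, |L i - nu k| ≤ δ := by
    intro i
    exact exists_small e hδ0 (x := b i) (hb0 i) (w := M (b i)) (hM _)
      (t := fun k => L i - nu k) (hbc i)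
  have hclose : ∀ i k, |L i - nu k| ≤ δ → 3 / 4 ≤ inner ℝ (b i) (e k) ^ 2 := by
    intro i k hik
    have := close_of_gap e (hb1 i) (hMb i) (t := fun k => L i - nu k) (hbc i) (k := k) (by
      intro j hj
      have h3 := nu_far hj
      have h5 : nu j - nu k = (L i - nu k) - (L i - nu j) := by ring
      rw [h5] at h3
      have := abs_sub (L i - nu k) (L i - nu j)
      linarith)
    nlinarith
  choose f hf using hex
  have hfinj : Function.Injective f := by
    intro k l hkl
    by_contra hne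
    have h1 := hf k
    have h2 := hf l
    rw [← hkl] at h2
    have h3 := nu_far hne
    have h5 : nu k - nu l = (L (f k) - nu l) - (L (f k) - nu k) := by ring
    rw [h5] at h3
    have := abs_sub (L (f k) - nu l) (L (f k) - nu k)
    linarith
  have hfsurj : Function.Surjective f := by
    intro i
    obtain ⟨k, hk⟩ := hex2 i
    refine ⟨k, ?_⟩
    by_contra hne
    have c1 := hclose i k hk
    have c2 := hclose (f k) k (hf k)
    have hb := parseval bb (e k)
    rw [he1] at hb
    classical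
    have hs : ∑ l ∈ {f k, i}, inner ℝ (e k) (bb l) ^ 2 ≤ (1 : ℝ) ^ 2 :=
      sum_le_hasSum _ (fun _ _ => sq_nonneg _) hb
    rw [Finset.sum_pair hne, hbb, hbb, real_inner_comm, real_inner_comm (b i)] at hs
    linarith
  refine ⟨fun k => b (f k), fun k => L (f k), ?_, hbo.comp f hfinj, ?_, fun k => hbG (f k)⟩
  · intro k l hkl
    rcases eq_or_lt_of_le hkl with h | h
    · rw [h]
    · have h1 := abs_le.mp (hf k)
      have h2 := abs_le.mp (hf l)
      have h3 := nu_gap h
      show L (f k) ≤ L (f l)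
      linarith [h1.1, h1.2, h2.1, h2.2]
  · intro x hx
    have h1 : ∀ i, inner ℝ x (bb i) = 0 := by
      intro i
      obtain ⟨k, rfl⟩ := hfsurj i
      rw [hbb, real_inner_comm]
      exact hx k
    have h3 := parseval bb x
    simp only [h1] at h3
    have h4 : ‖x‖ ^ 2 = 0 := h3.unique (by simp)
    exact norm_eq_zero.mp (pow_eq_zero_iff two_ne_zero |>.mp h4)

end

end Pool.Agent.Lib.MP_490a28_an
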