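import Pool.Agent.Lib.MP_490a28_an.Means
import Pool.Agent.Lib.MP_490a28_an.Spectral

set_option autoImplicit false

open Set Filter Topology MeasureTheory Real

namespace Pool.Agent.Lib.MP_490a28_an

/-- The Green kernel of `-d²/dx²` on `(0, π)` with Dirichlet conditions (cut off outside). -/
noncomputable def K (s t : ℝ) : ℝ := max 0 (min s t) * max 0 (π - max s t) / π

theorem continuous_K : Continuous (fun z : ℝ × ℝ => K z.1 z.2) := by unfold K; fun_prop

theorem K_bound (s t : ℝ) : ‖K s t‖ ≤ π := by
  have hpi := pi_pos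
  unfold K
  rw [norm_div, norm_mul, norm_eq_abs, norm_eq_abs, norm_eq_abs, abs_of_pos hpi,
    abs_of_nonneg (le_max_left _ _), abs_of_nonneg (le_max_left _ _), div_le_iff₀ hpi]
  rcases le_or_gt (min s t) 0 with h | h
  · rw [max_eq_left h, zero_mul]; positivity
  rcases le_or_gt (π - max s t) 0 with h' | h'
  · rw [max_eq_left h', mul_zero]; positivity
  rw [max_eq_right h.le, max_eq_right h'.le]
  have h1 : min s t ≤ max s t := min_le_max
  nlinarith

/-- The Green operator applied to a function. -/
noncomputable def green (g : ℝ → ℝ) (s : ℝ) : ℝ := ∫ t, K s t * g t ∂mu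

theorem green_integrable {g : ℝ → ℝ} (hg : Integrable g mu) (s : ℝ) :
    Integrable (fun t => K s t * g t) mu := by
  refine Integrable.bdd_mul (c := π) hg ?_ (Eventually.of_forall fun t => K_bound s t)
  exact (continuous_K.comp (by fun_prop : Continuous fun t : ℝ => (s, t))).aestronglyMeasurable

theorem continuous_green {g : ℝ → ℝ} (hg : Integrable g mu) : Continuous (green g) := by
  unfold green
  refine continuous_of_dominated (bound := fun t => π * ‖g t‖) ?_ ?_ (hg.norm.const_mul π) ?_
  · exact fun s => (green_integrable hg s).aestronglyMeasurable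
  · intro s
    refine Eventually.of_forall fun t => ?_
    rw [norm_mul]
    gcongr
    exact K_bound s t
  · refine Eventually.of_forall fun t => ?_
    exact (continuous_K.comp (by fun_prop : Continuous fun s : ℝ => (s, t))).mul continuous_const

theorem green_congr {g h : ℝ → ℝ} (hgh : g =ᵐ[mu] h) : green g = green h := by
  funext s
  unfold green
  refine integral_congr_ae ?_
  filter_upwards [hgh] with t ht
  rw [ht]

theorem kernel_sine (m : ℕ) (hm : 1 ≤ m) {t : ℝ} (ht : t ∈ Icc 0 π) :
    ∫ s in (0 : ℝ)..π, K s t * sin (m * s) = sin (m * t) / (m : ℝ) ^ 2 := by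
  have hpi := pi_pos
  have hm0 : (m : ℝ) ≠ 0 := by positivity
  have hKc : Continuous (fun s => K s t * sin (m * s)) :=
    (continuous_K.comp (by fun_prop : Continuous fun s : ℝ => (s, t))).mul (by fun_prop)
  rw [← intervalIntegral.integral_add_adjacent_intervals (hKc.intervalIntegrable 0 t)
    (hKc.intervalIntegrable t π)]
  let A : ℝ → ℝ := fun s => (π - t) / π * (-(s * cos (m * s)) / m + sin (m * s) / (m : ℝ) ^ 2)
  let C : ℝ → ℝ := fun s => t / π * (-((π - s) * cos (m * s)) / m - sin (m * s) / (m : ℝ) ^ 2)
  have d3 : ∀ s : ℝ, HasDerivAt (fun x : ℝ => sin (m * x)) (cos (m * s) * m) s := fun s => by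
    simpa using ((hasDerivAt_id s).const_mul (m : ℝ)).sin
  have d4 : ∀ s : ℝ, HasDerivAt (fun x : ℝ => cos (m * x)) (-sin (m * s) * m) s := fun s => by
    simpa using ((hasDerivAt_id s).const_mul (m : ℝ)).cos
  have hA : ∀ s, HasDerivAt A (s * (π - t) / π * sin (m * s)) s := by
    intro s
    have d6 := ((((hasDerivAt_id s).mul (d4 s)).neg.div_const (m : ℝ)).add
      ((d3 s).div_const ((m : ℝ) ^ 2))).const_mul ((π - t) / π)
    have hval : s * (π - t) / π * sin (m * s) = (π - t) / π *
        (-(1 * cos (m * s) + id s * (-sin (m * s) * m)) / m + cos (m * s) * m / (m : ℝ) ^ 2) := by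
      simp only [id]
      field_simp
      ring
    rw [hval]
    exact d6
  have hC : ∀ s, HasDerivAt C (t * (π - s) / π * sin (m * s)) s := by
    intro s
    have d5 : HasDerivAt (fun x : ℝ => π - x) (-1) s := by
      simpa using (hasDerivAt_id s).const_sub π
    have d6 := (((d5.mul (d4 s)).neg.div_const (m : ℝ)).sub
      ((d3 s).div_const ((m : ℝ) ^ 2))).const_mul (t / π)
    have hval : t * (π - s) / π * sin (m * s) = t / π *
        (-(-1 * cos (m * s) + (π - s) * (-sin (m * s) * m)) / m - cos (m * s) * m / (m : ℝ) ^ 2) := by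
      field_simp
      ring
    rw [hval]
    exact d6
  have e1 : ∫ s in (0 : ℝ)..t, K s t * sin (m * s) = A t - A 0 := by
    rw [← intervalIntegral.integral_eq_sub_of_hasDerivAt (fun x _ => hA x)
      (Continuous.intervalIntegrable (by fun_prop) _ _)]
    refine intervalIntegral.integral_congr fun s hs => ?_
    rw [uIcc_of_le ht.1] at hs
    show K s t * sin (m * s) = s * (π - t) / π * sin (m * s)
    unfold K
    rw [min_eq_left hs.2, max_eq_right hs.2, max_eq_right hs.1, max_eq_right (by linarith [ht.2])]
  have e2 : ∫ s in t..π, K s t * sin (m * s) = C π - C t := by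
    rw [← intervalIntegral.integral_eq_sub_of_hasDerivAt (fun x _ => hC x)
      (Continuous.intervalIntegrable (by fun_prop) _ _)]
    refine intervalIntegral.integral_congr fun s hs => ?_
    rw [uIcc_of_le ht.2] at hs
    show K s t * sin (m * s) = t * (π - s) / π * sin (m * s)
    unfold K
    rw [min_eq_right hs.1, max_eq_left hs.1, max_eq_right ht.1, max_eq_right (by linarith [hs.2])]
  rw [e1, e2]
  have s2 : sin (m * π) = 0 := sin_nat_mul_pi m
  simp only [A, C, s2, mul_zero, cos_zero, sin_zero, sub_self, zero_mul]
  field_simp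
  ring

theorem kernel_es (k : ℕ) {t : ℝ} (ht : t ∈ Ioo 0 π) :
    nu k * ∫ s, K s t * es k s ∂mu = es k t := by
  have hpi := pi_pos
  have h1 := kernel_sine (k + 1) (by omega) (Ioo_subset_Icc_self ht)
  rw [intervalIntegral.integral_of_le hpi.le, integral_Ioc_eq_integral_Ioo] at h1
  have h2 : ∫ s, K s t * es k s ∂mu = √(2 / π) * ∫ s in Ioo 0 π, K s t * sin ((k + 1 : ℕ) * s) := by
    rw [← integral_const_mul]
    refine integral_congr_ae (Eventually.of_forall fun x => ?_)
    simp only [es]; ring
  rw [h2, h1]
  unfold nu es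
  push_cast
  field_simp

theorem green_coeff {g : ℝ → ℝ} (hg : Integrable g mu) (k : ℕ) :
    nu k * ∫ s, green g s * es k s ∂mu = ∫ t, g t * es k t ∂mu := by
  have hswap : ∫ s, green g s * es k s ∂mu = ∫ t, g t * (∫ s, K s t * es k s ∂mu) ∂mu := by
    have h1 : ∀ s, green g s * es k s = ∫ t, K s t * g t * es k s ∂mu := by
      intro s
      unfold green
      rw [integral_mul_const]
    have h2 : ∀ t, g t * (∫ s, K s t * es k s ∂mu) = ∫ s, K s t * g t * es k s ∂mu := by
      intro t
      rw [← integral_const_mul]
      refine integral_congr_ae (Eventually.of_forall fun x => ?_)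
      simp only; ring
    simp_rw [h1, h2]
    refine integral_integral_swap ?_
    have h3 : Integrable (fun z : ℝ × ℝ => g z.2) (mu.prod mu) := hg.comp_snd mu
    have h4 : Integrable (fun z : ℝ × ℝ => (K z.1 z.2 * es k z.1) * g z.2) (mu.prod mu) := by
      refine Integrable.bdd_mul (c := π * √(2 / π)) h3 ?_ (Eventually.of_forall fun z => ?_)
      · exact (continuous_K.mul ((continuous_es k).comp continuous_fst)).aestronglyMeasurable
      · rw [norm_mul]
        gcongr
        · exact K_bound _ _
        · unfold es
          rw [norm_mul, norm_of_nonneg (sqrt_nonneg _)]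
          have : ‖sin ((k + 1 : ℕ) * z.1)‖ ≤ 1 := abs_sin_le_one _
          nlinarith [sqrt_nonneg (2 / π)]
    refine h4.congr (Eventually.of_forall fun z => ?_)
    simp only [Function.uncurry]
    ring
  rw [hswap, ← integral_const_mul]
  refine integral_congr_ae ?_
  have hmem : ∀ᵐ x ∂mu, x ∈ Ioo (0 : ℝ) π := ae_restrict_mem measurableSet_Ioo
  filter_upwards [hmem] with t ht
  have := kernel_es k ht
  calc nu k * (g t * ∫ s, K s t * es k s ∂mu) = g t * (nu k * ∫ s, K s t * es k s ∂mu) := by ring
    _ = g t * es k t := by rw [this]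

theorem green_zero (g : ℝ → ℝ) : green g 0 = 0 := by
  unfold green
  have hmem : ∀ᵐ x ∂mu, x ∈ Ioo (0 : ℝ) π := ae_restrict_mem measurableSet_Ioo
  rw [integral_eq_zero_of_ae]
  filter_upwards [hmem] with t ht
  unfold K
  rw [min_eq_left ht.1.le, max_self, zero_mul, zero_div, zero_mul]
  rfl

theorem green_pi (g : ℝ → ℝ) : green g π = 0 := by
  unfold green
  have hmem : ∀ᵐ x ∂mu, x ∈ Ioo (0 : ℝ) π := ae_restrict_mem measurableSet_Ioo
  rw [integral_eq_zero_of_ae]
  filter_upwards [hmem] with t ht
  unfold K
  rw [max_eq_left ht.2.le, sub_self, max_self, mul_zero, zero_div, zero_mul]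
  rfl

/-- For continuous `h` the function `green h` solves `-v'' = h` in `(0, π)`. -/
theorem green_deriv {h : ℝ → ℝ} (hh : Continuous h) : ∃ v' : ℝ → ℝ, ∀ s ∈ Ioo 0 π,
    HasDerivAt (green h) (v' s) s ∧ HasDerivAt v' (-h s) s := by
  have hpi := pi_pos
  let A : ℝ → ℝ := fun s => ∫ t in (0 : ℝ)..s, t * h t
  let C : ℝ → ℝ := fun s => ∫ t in s..π, (π - t) * h t
  have hA : ∀ s, HasDerivAt A (s * h s) s := fun s =>
    intervalIntegral.integral_hasDerivAt_right (Continuous.intervalIntegrable (by fun_prop) _ _)
      (Continuous.stronglyMeasurableAtFilter (by fun_prop) _ _) (Continuous.continuousAt (by fun_prop))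
  have hC : ∀ s, HasDerivAt C (-((π - s) * h s)) s := fun s =>
    intervalIntegral.integral_hasDerivAt_left (Continuous.intervalIntegrable (by fun_prop) _ _)
      (Continuous.stronglyMeasurableAtFilter (by fun_prop) _ _) (Continuous.continuousAt (by fun_prop))
  have hform : ∀ s ∈ Ioo 0 π, green h s = ((π - s) * A s + s * C s) / π := by
    intro s hs
    have hKc : Continuous (fun t => K s t * h t) :=
      (continuous_K.comp (by fun_prop : Continuous fun t : ℝ => (s, t))).mul hh
    unfold green
    rw [← integral_Ioc_eq_integral_Ioo, ← intervalIntegral.integral_of_le hpi.le,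
      ← intervalIntegral.integral_add_adjacent_intervals (hKc.intervalIntegrable 0 s)
      (hKc.intervalIntegrable s π)]
    have e1 : ∫ t in (0 : ℝ)..s, K s t * h t = (π - s) / π * A s := by
      simp only [A]
      rw [← intervalIntegral.integral_const_mul]
      refine intervalIntegral.integral_congr fun t ht => ?_
      rw [uIcc_of_le hs.1.le] at ht
      show K s t * h t = (π - s) / π * (t * h t)
      unfold K
      rw [min_eq_right ht.2, max_eq_left ht.2, max_eq_right ht.1, max_eq_right (by linarith [hs.2])]
      ring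
    have e2 : ∫ t in s..π, K s t * h t = s / π * C s := by
      simp only [C]
      rw [← intervalIntegral.integral_const_mul]
      refine intervalIntegral.integral_congr fun t ht => ?_
      rw [uIcc_of_le hs.2.le] at ht
      show K s t * h t = s / π * ((π - t) * h t)
      unfold K
      rw [min_eq_left ht.1, max_eq_right ht.1, max_eq_right hs.1.le, max_eq_right (by linarith [ht.2])]
      ring
    rw [e1, e2]
    ring
  refine ⟨fun s => (C s - A s) / π, fun s hs => ⟨?_, ?_⟩⟩
  · have d1 : HasDerivAt (fun x : ℝ => π - x) (-1) s := by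
      simpa using (hasDerivAt_id s).const_sub π
    have d2 := ((d1.mul (hA s)).add ((hasDerivAt_id s).mul (hC s))).div_const π
    have hval : (C s - A s) / π = (-1 * A s + (π - s) * (s * h s)
        + (1 * C s + id s * -((π - s) * h s))) / π := by
      simp only [id]; ring
    show HasDerivAt (green h) ((C s - A s) / π) s
    rw [hval]
    refine d2.congr_of_eventuallyEq ?_
    filter_upwards [isOpen_Ioo.mem_nhds hs] with x hx
    rw [hform x hx]
    rfl
  · have d2 := ((hC s).sub (hA s)).div_const π
    have hval : -h s = (-((π - s) * h s) - s * h s) / π := by field_simp; ring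
    rw [hval]
    exact d2

/-- The Green operator on `L²(0, π)`. -/
theorem exists_green_operator (be : HilbertBasis ℕ ℝ L2)
    (hbe : ∀ j, be j = (memLp_es j).toLp (es j)) :
    ∃ Gr : L2 →L[ℝ] L2, (∀ x k, nu k * inner ℝ (Gr x) (be k) = inner ℝ x (be k)) ∧
      ∀ x : L2, (Gr x : ℝ → ℝ) =ᵐ[mu] green x := by
  have hint : ∀ x : L2, Integrable (x : ℝ → ℝ) mu := fun x => (Lp.memLp x).integrable one_le_two
  have hmem : ∀ x : L2, MemLp (green x) 2 mu := fun x =>
    memLp_of_continuousOn (continuous_green (hint x)).continuousOn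
  let G0 : L2 →ₗ[ℝ] L2 :=
    { toFun := fun x => (hmem x).toLp _
      map_add' := fun x y => by
        rw [← MemLp.toLp_add]
        apply MemLp.toLp_congr
        refine Eventually.of_forall fun s => ?_
        rw [green_congr (Lp.coeFn_add x y)]
        show green (fun t => x t + y t) s = green x s + green y s
        unfold green
        rw [← integral_add (green_integrable (hint x) s) (green_integrable (hint y) s)]
        refine integral_congr_ae (Eventually.of_forall fun t => ?_)
        simp only; ring
      map_smul' := fun c x => by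
        rw [RingHom.id_apply, ← MemLp.toLp_const_smul]
        apply MemLp.toLp_congr
        refine Eventually.of_forall fun s => ?_
        rw [green_congr (Lp.coeFn_smul c x)]
        show green (fun t => c * x t) s = c * green x s
        unfold green
        rw [← integral_const_mul]
        refine integral_congr_ae (Eventually.of_forall fun t => ?_)
        simp only; ring }
  have hcoef : ∀ x k, nu k * inner ℝ (G0 x) (be k) = inner ℝ x (be k) := by
    intro x k
    have hxm : MemLp (x : ℝ → ℝ) 2 mu := Lp.memLp x
    have h4 : hxm.toLp x = x := Lp.toLp_coeFn x hxm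
    rw [hbe]
    show nu k * inner ℝ ((hmem x).toLp _) _ = _
    rw [inner_toLp, green_coeff (hint x) k]
    nth_rw 2 [← h4]
    rw [inner_toLp]
  have hbound : ∀ x, ‖G0 x‖ ≤ 1 * ‖x‖ := by
    intro x
    have h1 := parseval be (G0 x)
    have h2 := parseval be x
    have h3 : ‖G0 x‖ ^ 2 ≤ ‖x‖ ^ 2 := by
      refine hasSum_le (fun k => ?_) h1 h2
      have h4 : inner ℝ (G0 x) (be k) = inner ℝ x (be k) / nu k := by
        rw [eq_div_iff (nu_pos k).ne', mul_comm]
        exact hcoef x k
      rw [h4, div_pow]
      refine div_le_self (sq_nonneg _) ?_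
      have := one_le_nu k
      nlinarith
    rw [one_mul]
    exact (pow_le_pow_iff_left₀ (norm_nonneg _) (norm_nonneg _) two_ne_zero).mp h3
  refine ⟨G0.mkContinuous 1 hbound, fun x k => hcoef x k, fun x => ?_⟩
  exact (hmem x).coeFn_toLp

end Pool.Agent.Lib.MP_490a28_an
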