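import Mathlib

set_option autoImplicit false

open Set Filter Topology

namespace Pool.Agent.Lib.MP_490a28_an

variable {H : Type*} [NormedAddCommGroup H] [InnerProductSpace ℝ H] [CompleteSpace H]

set_option linter.unusedSectionVars false in
theorem parseval {ι : Type*} (b : HilbertBasis ι ℝ H) (x : H) :
    HasSum (fun i => inner ℝ x (b i) ^ 2) (‖x‖ ^ 2) := by
  have h := b.hasSum_inner_mul_inner x x
  rw [real_inner_self_eq_norm_sq] at h
  have e : (fun i => inner ℝ x (b i) * inner ℝ (b i) x) = fun i => inner ℝ x (b i) ^ 2 := by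
    funext i
    rw [real_inner_comm (b i) x]
    ring
  rwa [e] at h

/-- Some `t i` is small. -/
theorem exists_small {ι : Type*} (b : HilbertBasis ι ℝ H) {x w : H} {t : ι → ℝ} {δ : ℝ}
    (hδ : 0 ≤ δ) (hx : x ≠ 0)
    (hw : ‖w‖ ≤ δ * ‖x‖) (h : ∀ i, t i * inner ℝ x (b i) = inner ℝ w (b i)) : ∃ i, |t i| ≤ δ := by
  by_contra hcon
  push Not at hcon
  have hx1 := parseval b x
  have hw1 := parseval b w
  have h1 : HasSum (fun i => inner ℝ w (b i) ^ 2 - δ ^ 2 * inner ℝ x (b i) ^ 2)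
      (‖w‖ ^ 2 - δ ^ 2 * ‖x‖ ^ 2) := hw1.sub (hx1.mul_left _)
  have hterm : ∀ i, inner ℝ w (b i) ^ 2 - δ ^ 2 * inner ℝ x (b i) ^ 2
      = (t i ^ 2 - δ ^ 2) * inner ℝ x (b i) ^ 2 := by
    intro i; rw [← h i]; ring
  have hpos : ∀ i, 0 < t i ^ 2 - δ ^ 2 := by
    intro i
    have := hcon i
    have h2 : δ ^ 2 < |t i| ^ 2 := by gcongr
    rw [sq_abs] at h2
    linarith
  have hle : ‖w‖ ^ 2 - δ ^ 2 * ‖x‖ ^ 2 ≤ 0 := by
    have : ‖w‖ ^ 2 ≤ (δ * ‖x‖) ^ 2 := by gcongr
    nlinarith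
  have hnn : ∀ i, 0 ≤ inner ℝ w (b i) ^ 2 - δ ^ 2 * inner ℝ x (b i) ^ 2 := fun i => by
    rw [hterm]
    have := hpos i
    positivity
  have hzero : (fun i => inner ℝ w (b i) ^ 2 - δ ^ 2 * inner ℝ x (b i) ^ 2) = 0 := by
    have h0 : ‖w‖ ^ 2 - δ ^ 2 * ‖x‖ ^ 2 = 0 := le_antisymm hle (h1.nonneg hnn)
    rw [h0] at h1
    exact (hasSum_zero_iff_of_nonneg hnn).mp h1
  have hx0 : ∀ i, inner ℝ x (b i) ^ 2 = 0 := by
    intro i
    have := congrFun hzero i
    simp only [Pi.zero_apply] at this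
    rw [hterm] at this
    rcases mul_eq_zero.mp this with h2 | h2
    · exact absurd h2 (hpos i).ne'
    · exact h2
  have : ‖x‖ ^ 2 = 0 := by
    have h3 : (fun i => inner ℝ x (b i) ^ 2) = fun _ => (0 : ℝ) := funext hx0
    rw [h3] at hx1
    exact hx1.unique hasSum_zero
  exact hx (norm_eq_zero.mp (pow_eq_zero_iff (two_ne_zero) |>.mp this))

/-- If all `t i`, `i ≠ k`, are at least two in absolute value, then `x` is close to `± b k`. -/
theorem close_of_gap {ι : Type*} (b : HilbertBasis ι ℝ H) {x w : H} {t : ι → ℝ} {δ : ℝ}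
    (hx : ‖x‖ = 1) (hw : ‖w‖ ≤ δ) (h : ∀ i, t i * inner ℝ x (b i) = inner ℝ w (b i)) {k : ι}
    (hk : ∀ i, i ≠ k → 2 ≤ |t i|) : 1 - inner ℝ x (b k) ^ 2 ≤ δ ^ 2 / 4 := by
  classical
  have hx1 := parseval b x
  have hw1 := parseval b w
  rw [hx] at hx1
  have hsingle : HasSum (fun i => if i = k then inner ℝ x (b k) ^ 2 else 0)
      (inner ℝ x (b k) ^ 2) := hasSum_ite_eq k _
  have h1 := (hx1.sub hsingle).mul_left 4
  have h2 : 4 * (1 ^ 2 - inner ℝ x (b k) ^ 2) ≤ ‖w‖ ^ 2 := by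
    refine hasSum_le ?_ h1 hw1
    intro i
    by_cases hi : i = k
    · subst hi
      simp only [if_true, sub_self, mul_zero]
      positivity
    · simp only [if_neg hi, sub_zero]
      rw [← h i, mul_pow]
      have h3 : (2 : ℝ) ^ 2 ≤ |t i| ^ 2 := by
        have := hk i hi
        gcongr
      rw [sq_abs] at h3
      have := sq_nonneg (inner ℝ x (b i))
      nlinarith
  have h4 : ‖w‖ ^ 2 ≤ δ ^ 2 := by gcongr
  linarith

/-- The unperturbed eigenvalues. -/
def nu (k : ℕ) : ℝ := ((k : ℝ) + 1) ^ 2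

theorem nu_gap {i k : ℕ} (h : i < k) : nu i + 3 ≤ nu k := by
  unfold nu
  have h1 : (i : ℝ) + 1 ≤ k := by exact_mod_cast h
  have h2 : (0 : ℝ) ≤ i := Nat.cast_nonneg i
  nlinarith

theorem nu_far {i k : ℕ} (h : i ≠ k) : 3 ≤ |nu i - nu k| := by
  rcases lt_or_gt_of_ne h with h | h
  · have := nu_gap h
    rw [abs_sub_comm, le_abs]; left; linarith
  · have := nu_gap h
    rw [le_abs]; left; linarith

/-- Perturbation of the spectrum `1, 4, 9, ...`. -/
theorem perturb (e u : HilbertBasis ℕ ℝ H) {lam : ℕ → ℝ} (hmono : Monotone lam) {δ : ℝ}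
    (hδ0 : 0 ≤ δ) (hδ1 : δ ≤ 1) {w z : ℕ → H} (hw : ∀ j, ‖w j‖ ≤ δ) (hz : ∀ k, ‖z k‖ ≤ δ)
    (h1 : ∀ j k, (lam j - nu k) * inner ℝ (u j) (e k) = inner ℝ (w j) (e k))
    (h2 : ∀ j k, (lam j - nu k) * inner ℝ (u j) (e k) = inner ℝ (z k) (u j)) (j : ℕ) :
    1 - inner ℝ (u j) (e j) ^ 2 ≤ δ ^ 2 / 4 := by
  have hu1 : ∀ j, ‖u j‖ = 1 := u.orthonormal.1
  have he1 : ∀ j, ‖e j‖ = 1 := e.orthonormal.1
  have hex : ∀ j, ∃ k, |lam j - nu k| ≤ δ := by
    intro j
    refine exists_small e hδ0 (x := u j) ?_ (w := w j) (by rw [hu1, mul_one]; exact hw j) (h1 j)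
    intro h0
    have := hu1 j
    rw [h0, norm_zero] at this
    exact zero_ne_one this
  choose κ hκ using hex
  have hclose : ∀ j, 1 - inner ℝ (u j) (e (κ j)) ^ 2 ≤ δ ^ 2 / 4 := by
    intro j
    refine close_of_gap e (hu1 j) (hw j) (h1 j) ?_
    intro i hi
    have h3 := nu_far hi
    have h4 := hκ j
    have h5 : nu i - nu (κ j) = (lam j - nu (κ j)) - (lam j - nu i) := by ring
    rw [h5] at h3
    have := abs_sub (lam j - nu (κ j)) (lam j - nu i)
    linarith
  have hinj : ∀ i j, i < j → κ i ≠ κ j := by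
    intro i j hij heq
    have c1 := hclose i
    have c2 := hclose j
    rw [← heq] at c2
    have hb := parseval u (e (κ i))
    rw [he1] at hb
    have hs : ∑ l ∈ {i, j}, inner ℝ (e (κ i)) (u l) ^ 2 ≤ (1 : ℝ) ^ 2 :=
      sum_le_hasSum _ (fun _ _ => sq_nonneg _) hb
    rw [Finset.sum_pair hij.ne, real_inner_comm, real_inner_comm (u j)] at hs
    nlinarith
  have hmon : ∀ i j, i < j → κ i ≤ κ j := by
    intro i j hij
    by_contra hcon
    push Not at hcon
    have h3 := nu_gap hcon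
    have h4 := abs_le.mp (hκ i)
    have h5 := abs_le.mp (hκ j)
    have h6 := hmono hij.le
    linarith [h4.1, h4.2, h5.1, h5.2]
  have hsm : StrictMono κ := fun i j hij => lt_of_le_of_ne (hmon i j hij) (hinj i j hij)
  have hsurj : ∀ k, ∃ j, κ j = k := by
    intro k
    obtain ⟨j, hj⟩ : ∃ j, |lam j - nu k| ≤ δ := by
      refine exists_small u hδ0 (x := e k) ?_ (w := z k) (by rw [he1, mul_one]; exact hz k)
        (t := fun j => lam j - nu k) ?_
      · intro h0
        have := he1 k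
        rw [h0, norm_zero] at this
        exact zero_ne_one this
      · intro j
        rw [real_inner_comm, h2]
    refine ⟨j, ?_⟩
    by_contra hne
    have h3 := nu_far hne
    have h4 := hκ j
    have h5 : nu (κ j) - nu k = (lam j - nu k) - (lam j - nu (κ j)) := by ring
    rw [h5] at h3
    have := abs_sub (lam j - nu k) (lam j - nu (κ j))
    linarith
  have hid : ∀ n, κ n = n := by
    intro n
    induction n using Nat.strong_induction_on with
    | _ n ih =>
      obtain ⟨j, hj⟩ := hsurj n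
      have hle : n ≤ κ n := hsm.le_apply
      rcases lt_trichotomy j n with h | h | h
      · rw [ih j h] at hj; omega
      · rw [← h, hj, h]
      · have := hsm h
        omega
  have := hclose j
  rwa [hid] at this

end Pool.Agent.Lib.MP_490a28_an
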