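import Mathlib

set_option autoImplicit false

open Set Filter Topology MeasureTheory Real

namespace Pool.Agent.Lib.MP_490a28_an

/-- Lebesgue measure on `(0, π)`. -/
noncomputable abbrev mu : Measure ℝ := volume.restrict (Ioo 0 π)

instance : IsFiniteMeasure mu := ⟨by simp [mu]⟩

theorem integrable_mul_cont {f g : ℝ → ℝ} (hf : Integrable f mu) (hg : Continuous g) :
    Integrable (fun x => f x * g x) mu := by
  have hcomp : IsCompact (Icc (0 : ℝ) π) := isCompact_Icc
  obtain ⟨C, hC⟩ := hcomp.exists_bound_of_continuousOn hg.continuousOn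
  refine Integrable.mul_bdd (c := C) hf hg.aestronglyMeasurable ?_
  rw [ae_restrict_iff' measurableSet_Ioo]
  exact Eventually.of_forall fun x hx => hC x (Ioo_subset_Icc_self hx)

theorem sine_step1 {f : ℝ → ℝ} (hf : Integrable f mu)
    (h : ∀ k : ℕ, ∫ x, f x * sin ((k + 1 : ℕ) * x) ∂mu = 0) (n : ℕ) :
    ∀ k : ℕ, ∫ x, f x * (sin (k * x) * cos x ^ n) ∂mu = 0 := by
  induction n with
  | zero =>
    intro k
    rcases k with _ | k
    · simp
    · simpa using h k
  | succ n ih =>
    intro k
    rcases k with _ | k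
    · simp
    · have key : ∀ x : ℝ, f x * (sin ((k + 1 : ℕ) * x) * cos x ^ (n + 1))
          = (1 / 2) * (f x * (sin ((k + 2 : ℕ) * x) * cos x ^ n))
            + (1 / 2) * (f x * (sin ((k : ℕ) * x) * cos x ^ n)) := by
        intro x
        have h1 : ((k + 2 : ℕ) : ℝ) * x = ((k + 1 : ℕ) : ℝ) * x + x := by push_cast; ring
        have h2 : ((k : ℕ) : ℝ) * x = ((k + 1 : ℕ) : ℝ) * x - x := by push_cast; ring
        rw [h1, h2, sin_add, sin_sub]
        ring
      simp_rw [key]
      rw [integral_add, integral_const_mul, integral_const_mul, ih (k + 2), ih k]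
      · ring
      · exact (integrable_mul_cont hf (by fun_prop)).const_mul _
      · exact (integrable_mul_cont hf (by fun_prop)).const_mul _

theorem sine_step2 {f : ℝ → ℝ} (hf : Integrable f mu)
    (h : ∀ k : ℕ, ∫ x, f x * sin ((k + 1 : ℕ) * x) ∂mu = 0) (p : Polynomial ℝ) :
    ∫ x, f x * (sin x * p.eval (cos x)) ∂mu = 0 := by
  induction p using Polynomial.induction_on' with
  | add p q hp hq =>
    have : ∀ x : ℝ, f x * (sin x * (p + q).eval (cos x))
        = f x * (sin x * p.eval (cos x)) + f x * (sin x * q.eval (cos x)) := by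
      intro x; rw [Polynomial.eval_add]; ring
    simp_rw [this]
    rw [integral_add, hp, hq, add_zero]
    · exact integrable_mul_cont hf (by fun_prop)
    · exact integrable_mul_cont hf (by fun_prop)
  | monomial n a =>
    have : ∀ x : ℝ, f x * (sin x * (Polynomial.monomial n a).eval (cos x))
        = a * (f x * (sin ((1 : ℕ) * x) * cos x ^ n)) := by
      intro x; rw [Polynomial.eval_monomial]; push_cast; rw [one_mul]; ring
    simp_rw [this]
    rw [integral_const_mul, sine_step1 hf h n 1, mul_zero]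

theorem sine_step3 {f : ℝ → ℝ} (hf : Integrable f mu)
    (h : ∀ k : ℕ, ∫ x, f x * sin ((k + 1 : ℕ) * x) ∂mu = 0) {g : ℝ → ℝ} (hg : Continuous g) :
    ∫ x, f x * (sin x * g x) ∂mu = 0 := by
  rw [← norm_le_zero_iff]
  refine le_of_forall_pos_le_add fun ε hε => ?_
  set I := ∫ x, ‖f x‖ ∂mu with hI
  have hI0 : 0 ≤ I := integral_nonneg fun x => norm_nonneg _
  have hcont : ContinuousOn (fun t => g (arccos t)) (Icc (-1) 1) :=
    (hg.comp continuous_arccos).continuousOn
  obtain ⟨p, hp⟩ := exists_polynomial_near_of_continuousOn (-1) 1 _ hcont (ε / (I + 1))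
    (by positivity)
  have h1 : ∫ x, f x * (sin x * g x) ∂mu
      = ∫ x, f x * (sin x * (g x - p.eval (cos x))) ∂mu := by
    have : ∀ x : ℝ, f x * (sin x * (g x - p.eval (cos x)))
        = f x * (sin x * g x) - f x * (sin x * p.eval (cos x)) := by intro x; ring
    simp_rw [this]
    rw [integral_sub, sine_step2 hf h p, sub_zero]
    · exact integrable_mul_cont hf (by fun_prop)
    · exact integrable_mul_cont hf (by fun_prop)
  rw [h1, zero_add]
  have h2 : ‖∫ x, f x * (sin x * (g x - p.eval (cos x))) ∂mu‖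
      ≤ ∫ x, ‖f x‖ * (ε / (I + 1)) ∂mu := by
    refine norm_integral_le_of_norm_le (hf.norm.mul_const _) ?_
    rw [ae_restrict_iff' measurableSet_Ioo]
    refine Eventually.of_forall fun x hx => ?_
    rw [norm_mul, norm_mul]
    gcongr
    have h3 := hp (cos x) ⟨neg_one_le_cos x, cos_le_one x⟩
    rw [arccos_cos hx.1.le hx.2.le, abs_sub_comm] at h3
    have h4 : ‖sin x‖ ≤ 1 := by rw [norm_eq_abs]; exact abs_sin_le_one x
    rw [norm_eq_abs (g x - _)]
    have h5 := abs_nonneg (g x - Polynomial.eval (cos x) p)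
    nlinarith
  refine h2.trans ?_
  rw [integral_mul_const, ← hI, ← mul_div_assoc, div_le_iff₀ (by positivity)]
  nlinarith

/-- Completeness of the sine system on `(0, π)`. -/
theorem sine_complete {f : ℝ → ℝ} (hf : Integrable f mu)
    (h : ∀ k : ℕ, ∫ x, f x * sin ((k + 1 : ℕ) * x) ∂mu = 0) : f =ᵐ[mu] 0 := by
  let F : ℝ → ℝ := (Ioo (0 : ℝ) π).indicator (fun x => f x * sin x)
  have hFi : Integrable F volume := by
    rw [integrable_indicator_iff measurableSet_Ioo]
    exact integrable_mul_cont hf continuous_sin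
  have hF : ∀ᵐ x, F x = 0 := by
    refine ae_eq_zero_of_integral_contDiff_smul_eq_zero hFi.locallyIntegrable ?_
    intro g hg _
    have : ∀ x, g x • F x = (Ioo (0 : ℝ) π).indicator (fun x => f x * (sin x * g x)) x := by
      intro x
      by_cases hx : x ∈ Ioo (0 : ℝ) π
      · simp only [F, indicator_of_mem hx, smul_eq_mul]; ring
      · simp only [F, indicator_of_notMem hx, smul_zero]
    simp_rw [this]
    rw [integral_indicator measurableSet_Ioo]
    exact sine_step3 hf h hg.continuous
  have : ∀ᵐ x ∂mu, F x = 0 := ae_restrict_of_ae hF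
  have h2 : ∀ᵐ x ∂mu, x ∈ Ioo (0 : ℝ) π := ae_restrict_mem measurableSet_Ioo
  filter_upwards [this, h2] with x hx hx2
  simp only [F, indicator_of_mem hx2] at hx
  have hs : sin x ≠ 0 := (sin_pos_of_pos_of_lt_pi hx2.1 hx2.2).ne'
  simpa [hs] using hx

end Pool.Agent.Lib.MP_490a28_an
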