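import Pool.Agent.Lib.MP_490a28_an.Defs
import Pool.Agent.Lib.MP_490a28_an.SineComplete
import Pool.Agent.Lib.MP_490a28_an.Perturb

set_option autoImplicit false

open Set Filter Topology MeasureTheory Real

namespace Pool.Agent.Lib.MP_490a28_an

/-- The key identity (two integrations by parts). -/
theorem key_identity {V : ℝ → ℝ} (hV : Continuous V) {lam : ℝ} {u : ℝ → ℝ}
    (hu : IsDirichletSolution V 0 π lam u) (k : ℕ) :
    (lam - (k : ℝ) ^ 2) * ∫ x in Ioo 0 π, u x * sin (k * x)
      = ∫ x in Ioo 0 π, V x * u x * sin (k * x) := by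
  obtain ⟨hc, h0, hπ, u', u'', hd⟩ := hu
  have hpi := pi_pos
  -- the second derivative extends continuously
  set g : ℝ → ℝ := fun x => (V x - lam) * u x with hg
  have hgc : ContinuousOn g (Icc 0 π) := (hV.continuousOn.sub continuousOn_const).mul hc
  have hd2 : ∀ x ∈ Ioo 0 π, HasDerivAt u' (g x) x := by
    intro x hx
    obtain ⟨_, h2, h3⟩ := hd x hx
    have : u'' x = g x := by rw [hg]; simp only; linarith
    rwa [this] at h2
  obtain ⟨C, hC⟩ := isCompact_Icc.exists_bound_of_continuousOn hgc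
  have hmid : π / 2 ∈ Ioo 0 π := ⟨by linarith, by linarith⟩
  have hC0 : 0 ≤ C := (norm_nonneg _).trans (hC (π / 2) (Ioo_subset_Icc_self hmid))
  have hbd : ∀ x ∈ Ioo 0 π, ‖u' x‖ ≤ ‖u' (π / 2)‖ + C * π := by
    intro x hx
    have h1 : ‖u' x - u' (π / 2)‖ ≤ C * ‖x - π / 2‖ := by
      refine (convex_Ioo 0 π).norm_image_sub_le_of_norm_hasDerivWithin_le
        (fun y hy => (hd2 y hy).hasDerivWithinAt) (fun y hy => hC y (Ioo_subset_Icc_self hy)) hmid hx
    have h2 : ‖x - π / 2‖ ≤ π := by
      rw [norm_eq_abs, abs_le]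
      constructor <;> linarith [hx.1, hx.2]
    have h3 : ‖u' x‖ ≤ ‖u' x - u' (π / 2)‖ + ‖u' (π / 2)‖ := by
      have := norm_add_le (u' x - u' (π / 2)) (u' (π / 2))
      simpa using this
    nlinarith
  set M := ‖u' (π / 2)‖ + C * π with hM
  let F : ℝ → ℝ := fun x => u' x * sin (k * x) - u x * (k * cos (k * x))
  let F' : ℝ → ℝ := fun x => (V x - lam + (k : ℝ) ^ 2) * u x * sin (k * x)
  have hF : ∀ x ∈ Ioo 0 π, HasDerivAt F (F' x) x := by
    intro x hx
    have e1 : HasDerivAt (fun x : ℝ => sin (k * x)) (cos (k * x) * k) x := by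
      have := (hasDerivAt_id x).const_mul (k : ℝ)
      simpa using this.sin
    have e2 : HasDerivAt (fun x : ℝ => k * cos (k * x)) (k * (-sin (k * x) * k)) x := by
      have := (hasDerivAt_id x).const_mul (k : ℝ)
      simpa using this.cos.const_mul (k : ℝ)
    have e3 := ((hd2 x hx).mul e1).sub ((hd x hx).1.mul e2)
    have e4 : F' x = g x * sin (k * x) + u' x * (cos (k * x) * k)
        - (u' x * (k * cos (k * x)) + u x * (k * (-sin (k * x) * k))) := by
      show (V x - lam + (k : ℝ) ^ 2) * u x * sin (k * x) = ((V x - lam) * u x) * sin (k * x)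
        + u' x * (cos (k * x) * k) - (u' x * (k * cos (k * x)) + u x * (k * (-sin (k * x) * k)))
      ring
    rw [e4]
    exact e3
  have hFc : ContinuousOn F' (Icc 0 π) := by
    refine ContinuousOn.mul (ContinuousOn.mul ?_ hc) (by fun_prop)
    exact ((hV.continuousOn.sub continuousOn_const).add continuousOn_const)
  have hFi : IntervalIntegrable F' volume 0 π :=
    ContinuousOn.intervalIntegrable (by rwa [uIcc_of_le hpi.le])
  -- boundary terms
  have hlim : ∀ (a : ℝ) (l : Filter ℝ), l ≤ 𝓝 a → (∀ᶠ x in l, x ∈ Ioo 0 π) → sin (k * a) = 0 →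
      Tendsto u l (𝓝 0) → Tendsto F l (𝓝 0) := by
    intro a l hl hmem hs hu0
    have t1 : Tendsto (fun x => u' x * sin (k * x)) l (𝓝 0) := by
      have h1 : Tendsto (fun x : ℝ => M * ‖sin (k * x)‖) l (𝓝 0) := by
        have hcs : Continuous (fun x : ℝ => M * ‖sin (k * x)‖) := by fun_prop
        have := (hcs.tendsto a).mono_left hl
        simpa [hs] using this
      refine squeeze_zero_norm' ?_ h1
      filter_upwards [hmem] with x hx
      rw [norm_mul]
      gcongr
      exact hbd x hx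
    have t2 : Tendsto (fun x => u x * (k * cos (k * x))) l (𝓝 0) := by
      have hcc : Continuous (fun x : ℝ => (k : ℝ) * cos (k * x)) := by fun_prop
      have := hu0.mul ((hcc.tendsto a).mono_left hl)
      simpa using this
    have := t1.sub t2
    simpa using this
  have hl0 : Tendsto F (𝓝[>] 0) (𝓝 0) := by
    refine hlim 0 _ nhdsWithin_le_nhds ?_ (by simp) ?_
    · exact Ioo_mem_nhdsGT hpi
    · have : Tendsto u (𝓝[Icc 0 π] 0) (𝓝 (u 0)) := hc 0 ⟨le_rfl, hpi.le⟩
      rw [h0] at this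
      refine this.mono_left ?_
      rw [← nhdsWithin_Ioo_eq_nhdsGT hpi]
      exact nhdsWithin_mono _ Ioo_subset_Icc_self
  have hlπ : Tendsto F (𝓝[<] π) (𝓝 0) := by
    refine hlim π _ nhdsWithin_le_nhds ?_ (sin_nat_mul_pi k) ?_
    · exact Ioo_mem_nhdsLT hpi
    · have : Tendsto u (𝓝[Icc 0 π] π) (𝓝 (u π)) := hc π ⟨hpi.le, le_rfl⟩
      rw [hπ] at this
      refine this.mono_left ?_
      rw [← nhdsWithin_Ioo_eq_nhdsLT hpi]
      exact nhdsWithin_mono _ Ioo_subset_Icc_self
  have hint := intervalIntegral.integral_eq_sub_of_hasDerivAt_of_tendsto hpi hF hFi hl0 hlπ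
  rw [sub_zero, intervalIntegral.integral_of_le hpi.le, integral_Ioc_eq_integral_Ioo] at hint
  have i1 : IntegrableOn (fun x => u x * sin (k * x)) (Ioo 0 π) := by
    refine (ContinuousOn.integrableOn_Icc ?_).mono_set Ioo_subset_Icc_self
    exact hc.mul (by fun_prop)
  have i2 : IntegrableOn (fun x => V x * u x * sin (k * x)) (Ioo 0 π) := by
    refine (ContinuousOn.integrableOn_Icc ?_).mono_set Ioo_subset_Icc_self
    exact (hV.continuousOn.mul hc).mul (by fun_prop)
  have hsplit : ∫ x in Ioo 0 π, F' x = (∫ x in Ioo 0 π, V x * u x * sin (k * x))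
      - (lam - (k : ℝ) ^ 2) * ∫ x in Ioo 0 π, u x * sin (k * x) := by
    rw [← integral_const_mul, ← integral_sub i2 (i1.const_mul _)]
    refine integral_congr_ae (Eventually.of_forall fun x => ?_)
    simp only [F']
    ring
  rw [hsplit] at hint
  linarith

/-- The normalized sine functions. -/
noncomputable def es (k : ℕ) (x : ℝ) : ℝ := √(2 / π) * sin ((k + 1 : ℕ) * x)

theorem continuous_es (k : ℕ) : Continuous (es k) := by unfold es; fun_prop

theorem es_sq (k : ℕ) (x : ℝ) : es k x ^ 2 = (2 / π) * sin ((k + 1 : ℕ) * x) ^ 2 := by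
  unfold es
  rw [mul_pow, sq_sqrt (by positivity)]

theorem integral_cos_nat (m : ℤ) (hm : m ≠ 0) : ∫ x in (0 : ℝ)..π, cos (m * x) = 0 := by
  have hm' : (m : ℝ) ≠ 0 := by exact_mod_cast hm
  rw [intervalIntegral.integral_comp_mul_left (fun x => cos x) hm', integral_cos]
  simp [sin_int_mul_pi]

theorem es_orthonormal (i j : ℕ) : ∫ x in Ioo 0 π, es i x * es j x = if i = j then 1 else 0 := by
  have hpi := pi_pos
  rw [← integral_Ioc_eq_integral_Ioo, ← intervalIntegral.integral_of_le hpi.le]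
  have h : ∀ x : ℝ, es i x * es j x = (1 / π) * (cos ((i - j : ℤ) * x) - cos ((i + j + 2 : ℤ) * x)) := by
    intro x
    unfold es
    have h1 : √(2 / π) * √(2 / π) = 2 / π := mul_self_sqrt (by positivity)
    have h2 : ((i - j : ℤ) : ℝ) * x = (i + 1 : ℕ) * x - (j + 1 : ℕ) * x := by push_cast; ring
    have h3 : ((i + j + 2 : ℤ) : ℝ) * x = (i + 1 : ℕ) * x + (j + 1 : ℕ) * x := by push_cast; ring
    rw [h2, h3, cos_sub, cos_add]
    calc √(2 / π) * sin ((i + 1 : ℕ) * x) * (√(2 / π) * sin ((j + 1 : ℕ) * x))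
        = (√(2 / π) * √(2 / π)) * (sin ((i + 1 : ℕ) * x) * sin ((j + 1 : ℕ) * x)) := by ring
      _ = _ := by rw [h1]; ring
  simp_rw [h]
  rw [intervalIntegral.integral_const_mul, intervalIntegral.integral_sub, integral_cos_nat (i + j + 2)
    (by positivity)]
  · by_cases hij : i = j
    · subst hij
      simp [hpi.ne']
    · rw [integral_cos_nat (i - j) (by omega)]
      simp [hij]
  · exact Continuous.intervalIntegrable (by fun_prop) _ _
  · exact Continuous.intervalIntegrable (by fun_prop) _ _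

end Pool.Agent.Lib.MP_490a28_an
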