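import Pool.Agent.Lib.MP_490a28_an.Means

set_option autoImplicit false

open Set Filter Topology MeasureTheory Real

namespace Pool.Agent.Lib.MP_490a28_an

/-- The potential `ε |x - π/2|`. -/
noncomputable def Vtent (ε : ℝ) (x : ℝ) : ℝ := ε * |x - π / 2|

theorem continuous_Vtent (ε : ℝ) : Continuous (Vtent ε) := by unfold Vtent; fun_prop

theorem convexOn_Vtent {ε : ℝ} (hε : 0 ≤ ε) (s : Set ℝ) (hs : Convex ℝ s) :
    ConvexOn ℝ s (Vtent ε) := by
  refine ⟨hs, ?_⟩
  intro x _ y _ a b ha hb hab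
  unfold Vtent
  have h1 : a • x + b • y - π / 2 = a * (x - π / 2) + b * (y - π / 2) := by
    have : b = 1 - a := by linarith
    subst this
    simp only [smul_eq_mul]; ring
  rw [h1]
  have h2 : |a * (x - π / 2) + b * (y - π / 2)| ≤ a * |x - π / 2| + b * |y - π / 2| := by
    refine (abs_add_le _ _).trans ?_
    rw [abs_mul, abs_mul, abs_of_nonneg ha, abs_of_nonneg hb]
  simp only [smul_eq_mul]
  nlinarith

theorem tent_integral (m : ℕ) (hm : 1 ≤ m) :
    ∫ x in (0 : ℝ)..π, |x - π / 2| * sin (m * x) ^ 2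
      = π ^ 2 / 8 - (1 - cos (m * π)) / (4 * (m : ℝ) ^ 2) := by
  have hpi := pi_pos
  have hm0 : (m : ℝ) ≠ 0 := by positivity
  let A : ℝ → ℝ := fun x => π * x / 4 - x ^ 2 / 4 - (π / 2 - x) * sin (2 * m * x) / (4 * m)
    + cos (2 * m * x) / (8 * (m : ℝ) ^ 2)
  have hA : ∀ x, HasDerivAt A ((π / 2 - x) * sin (m * x) ^ 2) x := by
    intro x
    have d1 : HasDerivAt (fun x : ℝ => π * x / 4) (π / 4) x := by
      simpa using ((hasDerivAt_id x).const_mul π).div_const 4
    have d2 : HasDerivAt (fun x : ℝ => x ^ 2 / 4) (2 * x / 4) x := by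
      simpa using (hasDerivAt_pow 2 x).div_const 4
    have d3 : HasDerivAt (fun x : ℝ => sin (2 * m * x)) (cos (2 * m * x) * (2 * m)) x := by
      simpa using ((hasDerivAt_id x).const_mul (2 * (m : ℝ))).sin
    have d4 : HasDerivAt (fun x : ℝ => cos (2 * m * x)) (-sin (2 * m * x) * (2 * m)) x := by
      simpa using ((hasDerivAt_id x).const_mul (2 * (m : ℝ))).cos
    have d5 : HasDerivAt (fun x : ℝ => π / 2 - x) (-1) x := by
      simpa using (hasDerivAt_id x).const_sub (π / 2)
    have d6 := ((d1.sub d2).sub ((d5.mul d3).div_const (4 * m))).add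
      (d4.div_const (8 * (m : ℝ) ^ 2))
    have hs : sin (m * x) ^ 2 = (1 - cos (2 * m * x)) / 2 := by
      have : 2 * (m : ℝ) * x = 2 * (m * x) := by ring
      rw [this, cos_two_mul, cos_sq']
      ring
    have hval : (π / 2 - x) * sin (m * x) ^ 2 = π / 4 - 2 * x / 4
        - (-1 * sin (2 * m * x) + (π / 2 - x) * (cos (2 * m * x) * (2 * m))) / (4 * m)
        + -sin (2 * m * x) * (2 * m) / (8 * (m : ℝ) ^ 2) := by
      rw [hs]
      field_simp
      ring
    rw [hval]
    exact d6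
  have hcont : ∀ a b : ℝ, IntervalIntegrable (fun x : ℝ => |x - π / 2| * sin (m * x) ^ 2) volume a b :=
    fun a b => Continuous.intervalIntegrable (by fun_prop) _ _
  rw [← intervalIntegral.integral_add_adjacent_intervals (hcont 0 (π / 2)) (hcont (π / 2) π)]
  have e1 : ∫ x in (0 : ℝ)..(π / 2), |x - π / 2| * sin (m * x) ^ 2 = A (π / 2) - A 0 := by
    rw [← intervalIntegral.integral_eq_sub_of_hasDerivAt (fun x _ => hA x)
      (Continuous.intervalIntegrable (by fun_prop) _ _)]
    refine intervalIntegral.integral_congr fun x hx => ?_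
    rw [uIcc_of_le (by positivity)] at hx
    show |x - π / 2| * sin (m * x) ^ 2 = (π / 2 - x) * sin (m * x) ^ 2
    rw [abs_of_nonpos (by linarith [hx.2])]
    ring
  have e2 : ∫ x in (π / 2)..π, |x - π / 2| * sin (m * x) ^ 2 = -(A π - A (π / 2)) := by
    rw [← intervalIntegral.integral_eq_sub_of_hasDerivAt (fun x _ => hA x)
      (Continuous.intervalIntegrable (by fun_prop) _ _), ← intervalIntegral.integral_neg]
    refine intervalIntegral.integral_congr fun x hx => ?_
    rw [uIcc_of_le (by linarith)] at hx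
    show |x - π / 2| * sin (m * x) ^ 2 = -((π / 2 - x) * sin (m * x) ^ 2)
    rw [abs_of_nonneg (by linarith [hx.1])]
    ring
  rw [e1, e2]
  have s1 : (2 : ℝ) * m * (π / 2) = m * π := by ring
  have s2 : sin (2 * m * π) = 0 := by
    have := sin_nat_mul_pi (2 * m)
    push_cast at this
    exact this
  have s3 : cos (2 * m * π) = 1 := by
    have := cos_nat_mul_two_pi m
    rw [← this]
    ring_nf
  simp only [A, s1, s2, s3, mul_zero, cos_zero, sin_zero]
  field_simp
  ring

theorem mean_es (ε : ℝ) (j : ℕ) : potentialMean (Vtent ε) 0 π (es j)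
    = ε * (π / 4 - (1 - cos ((j + 1 : ℕ) * π)) / (2 * π * ((j + 1 : ℕ) : ℝ) ^ 2)) := by
  have hpi := pi_pos
  unfold potentialMean
  rw [← integral_Ioc_eq_integral_Ioo, ← intervalIntegral.integral_of_le hpi.le]
  have h : ∀ x, Vtent ε x * es j x ^ 2
      = ε * (2 / π) * (|x - π / 2| * sin ((j + 1 : ℕ) * x) ^ 2) := by
    intro x
    rw [es_sq]
    unfold Vtent
    ring
  simp_rw [h]
  rw [intervalIntegral.integral_const_mul, tent_integral (j + 1) (by omega)]
  have : (((j + 1 : ℕ) : ℝ)) ≠ 0 := by positivity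
  field_simp
  ring

/-- In every admissible eigenbasis for `ε |x - π/2|` the third mean is smaller than the
second one. -/
theorem third_lt_second {ε : ℝ} (hε : 0 < ε) (hε1 : ε ≤ 1 / 300) {u : ℕ → ℝ → ℝ} {lam : ℕ → ℝ}
    (h : IsAdmissibleEigenbasis (Vtent ε) 0 π u lam) :
    potentialMean (Vtent ε) 0 π (u 2) < potentialMean (Vtent ε) 0 π (u 1) := by
  have hpi := pi_pos
  have hpi4 : π < 3.15 := pi_lt_d2
  have hδ1 : ε * π / 2 ≤ 1 := by nlinarith
  have hVb : ∀ x ∈ Ioo 0 π, |Vtent ε x| ≤ ε * π / 2 := by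
    intro x hx
    unfold Vtent
    rw [abs_mul, abs_of_pos hε, abs_abs]
    have : |x - π / 2| ≤ π / 2 := by
      rw [abs_le]; constructor <;> linarith [hx.1, hx.2]
    nlinarith
  have h1 := mean_close (continuous_Vtent ε) (by positivity) hδ1 hVb h 1
  have h2 := mean_close (continuous_Vtent ε) (by positivity) hδ1 hVb h 2
  rw [mean_es] at h1 h2
  have c1 : cos ((1 + 1 : ℕ) * π) = 1 := by
    have := cos_two_pi
    push_cast
    norm_num
  have c2 : cos ((2 + 1 : ℕ) * π) = -1 := by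
    have := cos_add_pi (2 * π)
    rw [cos_two_pi] at this
    rw [← this]
    congr 1
    push_cast
    ring
  rw [c1] at h1
  rw [c2] at h2
  rw [abs_le] at h1 h2
  have k1 := h1.1
  have k2 := h2.2
  have key : 3 * (ε * π / 2) ^ 2 < ε * (1 / (9 * π)) := by
    have h3 : π ^ 3 < 31.3 := by
      have : π ^ 3 < 3.15 ^ 3 := by gcongr
      norm_num at this ⊢
      linarith
    have h4 : 3 * (ε * π / 2) ^ 2 * (9 * π) < ε := by
      have : 3 * (ε * π / 2) ^ 2 * (9 * π) = ε * (27 / 4 * (ε * π ^ 3)) := by ring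
      rw [this]
      have h5 : ε * π ^ 3 < 1 / 300 * 31.3 := by nlinarith [pow_pos hpi 3]
      nlinarith
    have h6 : ε * (1 / (9 * π)) = ε / (9 * π) := by ring
    rw [h6, lt_div_iff₀ (by positivity)]
    exact h4
  have e1 : ε * (π / 4 - (1 - -1) / (2 * π * ((2 + 1 : ℕ) : ℝ) ^ 2))
      = ε * (π / 4) - ε * (1 / (9 * π)) := by
    push_cast
    field_simp
    ring
  have e2 : ε * (π / 4 - (1 - 1) / (2 * π * ((1 + 1 : ℕ) : ℝ) ^ 2)) = ε * (π / 4) := by simp
  rw [e1] at k2
  rw [e2] at k1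
  linarith

end Pool.Agent.Lib.MP_490a28_an
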