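import Pool.Agent.Lib.MP_490a28_an.Green
import Pool.Agent.Lib.MP_490a28_an.Tent

set_option autoImplicit false

open Set Filter Topology MeasureTheory Real

namespace Pool.Agent.Lib.MP_490a28_an

theorem inner_toLp_left {f : ℝ → ℝ} (hf : MemLp f 2 mu) (y : L2) :
    inner ℝ (hf.toLp f) y = ∫ t, f t * y t ∂mu := by
  have hy : (Lp.memLp y).toLp y = y := Lp.toLp_coeFn y _
  have h1 := inner_toLp hf (Lp.memLp y)
  rwa [hy] at h1

/-- Multiplication by a small bounded continuous potential, as an operator on `L²(0, π)`. -/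
theorem exists_mult_operator {V : ℝ → ℝ} (hV : Continuous V) {δ : ℝ} (hδ0 : 0 ≤ δ)
    (hVb : ∀ x ∈ Ioo 0 π, |V x| ≤ δ) :
    ∃ M : L2 →L[ℝ] L2, (∀ x, ‖M x‖ ≤ δ * ‖x‖) ∧ (∀ x y, inner ℝ (M x) y = inner ℝ x (M y)) ∧
      ∀ x : L2, (M x : ℝ → ℝ) =ᵐ[mu] fun t => V t * x t := by
  have hmem0 : ∀ᵐ x ∂mu, x ∈ Ioo (0 : ℝ) π := ae_restrict_mem measurableSet_Ioo
  have hmem : ∀ x : L2, MemLp (fun t => V t * x t) 2 mu := fun x => by
    refine MemLp.of_le_mul (c := δ) (Lp.memLp x) (hV.aestronglyMeasurable.mul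
      (Lp.memLp x).aestronglyMeasurable) ?_
    filter_upwards [hmem0] with t ht
    rw [norm_mul]
    gcongr
    exact hVb t ht
  let M0 : L2 →ₗ[ℝ] L2 :=
    { toFun := fun x => (hmem x).toLp _
      map_add' := fun x y => by
        rw [← MemLp.toLp_add]
        apply MemLp.toLp_congr
        filter_upwards [Lp.coeFn_add x y] with t ht
        rw [ht]
        simp only [Pi.add_apply]
        ring
      map_smul' := fun c x => by
        rw [RingHom.id_apply, ← MemLp.toLp_const_smul]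
        apply MemLp.toLp_congr
        filter_upwards [Lp.coeFn_smul c x] with t ht
        rw [ht]
        simp only [Pi.smul_apply, smul_eq_mul]
        ring }
  have hbound : ∀ x, ‖M0 x‖ ≤ δ * ‖x‖ := by
    intro x
    refine Lp.norm_le_mul_norm_of_ae_le_mul ?_
    filter_upwards [(hmem x).coeFn_toLp, hmem0] with t h1 h3
    show ‖(hmem x).toLp _ t‖ ≤ _
    rw [h1, norm_mul, norm_eq_abs (V t)]
    gcongr
    exact hVb t h3
  refine ⟨M0.mkContinuous δ hbound, fun x => hbound x, ?_, fun x => (hmem x).coeFn_toLp⟩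
  intro x y
  show inner ℝ ((hmem x).toLp _) y = inner ℝ x ((hmem y).toLp _)
  rw [inner_toLp_left, real_inner_comm, inner_toLp_left]
  refine integral_congr_ae (Eventually.of_forall fun t => ?_)
  simp only; ring

/-- Existence of an admissible eigenbasis for small continuous potentials. -/
theorem exists_admissible {V : ℝ → ℝ} (hV : Continuous V) {δ : ℝ} (hδ0 : 0 ≤ δ)
    (hδ1 : δ ≤ 1 / 2) (hVb : ∀ x ∈ Ioo 0 π, |V x| ≤ δ) :
    ∃ u lam, IsAdmissibleEigenbasis V 0 π u lam := by
  obtain ⟨be, hbe⟩ := exists_basis memLp_es es_orthonormal es_complete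
  obtain ⟨Gr, hG, hGae⟩ := exists_green_operator be hbe
  obtain ⟨M, hM, hMs, hMae⟩ := exists_mult_operator hV hδ0 hVb
  obtain ⟨v, lam, hmono, hvo, hvc, hveq⟩ := abstract_spectral be Gr hG M hMs hδ0 hδ1 hM
  -- the continuous representatives
  have hint : ∀ x : L2, Integrable (x : ℝ → ℝ) mu := fun x => (Lp.memLp x).integrable one_le_two
  let y : ℕ → L2 := fun j => lam j • v j - M (v j)
  let u : ℕ → ℝ → ℝ := fun j => green (y j)
  have huc : ∀ j, Continuous (u j) := fun j => continuous_green (hint (y j))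
  have huv : ∀ j, (v j : ℝ → ℝ) =ᵐ[mu] u j := by
    intro j
    have h1 := hGae (y j)
    have h2 : Gr (y j) = v j := (hveq j).symm
    rw [h2] at h1
    exact h1
  have hyh : ∀ j, (y j : ℝ → ℝ) =ᵐ[mu] fun t => (lam j - V t) * u j t := by
    intro j
    filter_upwards [Lp.coeFn_sub (lam j • v j) (M (v j)), Lp.coeFn_smul (lam j) (v j),
      hMae (v j), huv j] with t h1 h2 h3 h4
    show (lam j • v j - M (v j) : L2) t = _
    rw [h1, Pi.sub_apply, h2, Pi.smul_apply, h3, smul_eq_mul, h4]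
    ring
  have hug : ∀ j, u j = green (fun t => (lam j - V t) * u j t) := fun j => green_congr (hyh j)
  have hum : ∀ j, MemLp (u j) 2 mu := fun j => memLp_of_continuousOn (huc j).continuousOn
  have hvu : ∀ j, v j = (hum j).toLp (u j) := by
    intro j
    have h1 : (Lp.memLp (v j)).toLp (v j) = v j := Lp.toLp_coeFn (v j) _
    rw [← h1]
    exact MemLp.toLp_congr _ _ (huv j)
  refine ⟨u, lam, hmono, ?_, ?_, ?_⟩
  · intro j
    have hh : Continuous (fun t => (lam j - V t) * u j t) :=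
      (continuous_const.sub hV).mul (huc j)
    obtain ⟨v', hv'⟩ := green_deriv hh
    rw [← hug j] at hv'
    refine ⟨(huc j).continuousOn, green_zero _, green_pi _, v', fun t => -((lam j - V t) * u j t),
      fun x hx => ⟨(hv' x hx).1, (hv' x hx).2, ?_⟩⟩
    ring
  · intro i j
    have h1 := (orthonormal_iff_ite.mp hvo) i j
    rw [hvu i, hvu j, inner_toLp] at h1
    exact h1
  · intro f hf hfu
    have h1 : hf.toLp f = 0 := by
      refine hvc _ fun j => ?_
      rw [hvu j, inner_toLp, ← hfu j]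
      refine integral_congr_ae (Eventually.of_forall fun t => ?_)
      simp only; ring
    have h2 := hf.coeFn_toLp
    rw [h1] at h2
    exact h2.symm.trans (Lp.coeFn_zero ℝ 2 mu)

/-- Main theorem. -/
theorem main {ε : ℝ} (hε : 0 < ε) (hε1 : ε ≤ 1 / 300) :
    ConvexOn ℝ (Ioo 0 π) (Vtent ε) ∧ (∃ u lam, IsAdmissibleEigenbasis (Vtent ε) 0 π u lam) ∧
      ∀ u lam, IsAdmissibleEigenbasis (Vtent ε) 0 π u lam →
        potentialMean (Vtent ε) 0 π (u 2) < potentialMean (Vtent ε) 0 π (u 1) := by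
  have hpi := pi_pos
  have hpi4 : π < 3.15 := pi_lt_d2
  refine ⟨convexOn_Vtent hε.le _ (convex_Ioo 0 π), ?_, fun u lam h => third_lt_second hε hε1 h⟩
  refine exists_admissible (continuous_Vtent ε) (δ := ε * π / 2) (by positivity) (by nlinarith) ?_
  intro x hx
  unfold Vtent
  rw [abs_mul, abs_of_pos hε, abs_abs]
  have : |x - π / 2| ≤ π / 2 := by
    rw [abs_le]; constructor <;> linarith [hx.1, hx.2]
  nlinarith

end Pool.Agent.Lib.MP_490a28_an
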