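import Pool.Agent.Lib.MP_490a28_an.Identity

set_option autoImplicit false

open Set Filter Topology MeasureTheory Real

namespace Pool.Agent.Lib.MP_490a28_an

/-- The Hilbert space `L²(0, π)`. -/
abbrev L2 : Type := Lp ℝ 2 mu

theorem inner_toLp {f g : ℝ → ℝ} (hf : MemLp f 2 mu) (hg : MemLp g 2 mu) :
    inner ℝ (hf.toLp f) (hg.toLp g) = ∫ x, f x * g x ∂mu := by
  rw [MeasureTheory.L2.inner_def]
  refine integral_congr_ae ?_
  filter_upwards [hf.coeFn_toLp, hg.coeFn_toLp] with x h1 h2
  rw [h1, h2]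
  simp [mul_comm]

theorem norm_sq_toLp {f : ℝ → ℝ} (hf : MemLp f 2 mu) :
    ‖hf.toLp f‖ ^ 2 = ∫ x, f x ^ 2 ∂mu := by
  rw [← real_inner_self_eq_norm_sq, inner_toLp]
  simp_rw [sq]

theorem memLp_of_continuousOn {f : ℝ → ℝ} (hf : ContinuousOn f (Icc 0 π)) : MemLp f 2 mu := by
  obtain ⟨C, hC⟩ := isCompact_Icc.exists_bound_of_continuousOn hf
  refine MemLp.of_bound ?_ C ?_
  · exact (hf.mono Ioo_subset_Icc_self).aestronglyMeasurable measurableSet_Ioo
  · rw [ae_restrict_iff' measurableSet_Ioo]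
    exact Eventually.of_forall fun x hx => hC x (Ioo_subset_Icc_self hx)

/-- Hilbert basis from a complete orthonormal sequence of functions. -/
theorem exists_basis {f : ℕ → ℝ → ℝ} (hf : ∀ j, MemLp (f j) 2 mu)
    (ho : ∀ i j, ∫ x in Ioo 0 π, f i x * f j x = if i = j then 1 else 0)
    (hcomp : ∀ g : ℝ → ℝ, MemLp g 2 mu → (∀ j, ∫ x in Ioo 0 π, g x * f j x = 0) → g =ᵐ[mu] 0) :
    ∃ b : HilbertBasis ℕ ℝ L2, ∀ j, b j = (hf j).toLp (f j) := by
  let v : ℕ → L2 := fun j => (hf j).toLp (f j)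
  have hv : Orthonormal ℝ v := by
    rw [orthonormal_iff_ite]
    intro i j
    rw [inner_toLp]
    exact ho i j
  have hsp : (Submodule.span ℝ (Set.range v))ᗮ = ⊥ := by
    rw [Submodule.eq_bot_iff]
    intro x hx
    have h1 : ∀ j, inner ℝ (v j) x = 0 := fun j =>
      (Submodule.mem_orthogonal _ x).mp hx (v j) (Submodule.subset_span ⟨j, rfl⟩)
    have hxm : MemLp (x : ℝ → ℝ) 2 mu := Lp.memLp x
    have h2 := hcomp x hxm (fun j => by
      have h3 := h1 j
      have h4 : hxm.toLp x = x := Lp.toLp_coeFn x hxm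
      rw [← h4, inner_toLp] at h3
      refine Eq.trans ?_ h3
      refine integral_congr_ae (Eventually.of_forall fun y => ?_)
      simp only
      ring)
    exact (Lp.eq_zero_iff_ae_eq_zero).mpr h2
  refine ⟨HilbertBasis.mkOfOrthogonalEqBot hv hsp, fun j => ?_⟩
  rw [HilbertBasis.coe_mkOfOrthogonalEqBot]

theorem es_complete (g : ℝ → ℝ) (hg : MemLp g 2 mu) (h : ∀ j, ∫ x in Ioo 0 π, g x * es j x = 0) :
    g =ᵐ[mu] 0 := by
  have hpi := pi_pos
  refine sine_complete (hg.integrable one_le_two) fun k => ?_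
  have h1 := h k
  have h2 : ∀ x, g x * es k x = √(2 / π) * (g x * sin ((k + 1 : ℕ) * x)) := by
    intro x; unfold es; ring
  simp_rw [h2] at h1
  rw [integral_const_mul] at h1
  rcases mul_eq_zero.mp h1 with h3 | h3
  · exfalso
    have : 0 < √(2 / π) := sqrt_pos.mpr (by positivity)
    exact this.ne' h3
  · exact h3

theorem memLp_es (j : ℕ) : MemLp (es j) 2 mu := memLp_of_continuousOn (continuous_es j).continuousOn

/-- Multiplication by a bounded function does not increase the norm by more than the bound. -/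
theorem norm_toLp_mul_le {V f : ℝ → ℝ} {δ : ℝ} (hVb : ∀ x ∈ Ioo 0 π, |V x| ≤ δ)
    (hf : MemLp f 2 mu) (hVf : MemLp (fun x => V x * f x) 2 mu) :
    ‖hVf.toLp _‖ ≤ δ * ‖hf.toLp f‖ := by
  refine Lp.norm_le_mul_norm_of_ae_le_mul ?_
  have hmem : ∀ᵐ x ∂mu, x ∈ Ioo (0 : ℝ) π := ae_restrict_mem measurableSet_Ioo
  filter_upwards [hf.coeFn_toLp, hVf.coeFn_toLp, hmem] with x h1 h2 h3
  rw [h1, h2, norm_mul, norm_eq_abs (V x)]
  gcongr
  exact hVb x h3

/-- The first order perturbation estimate for the means of the potential. -/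
theorem mean_close {V : ℝ → ℝ} (hV : Continuous V) {δ : ℝ} (hδ0 : 0 ≤ δ) (hδ1 : δ ≤ 1)
    (hVb : ∀ x ∈ Ioo 0 π, |V x| ≤ δ) {u : ℕ → ℝ → ℝ} {lam : ℕ → ℝ}
    (h : IsAdmissibleEigenbasis V 0 π u lam) (j : ℕ) :
    |potentialMean V 0 π (u j) - potentialMean V 0 π (es j)| ≤ 3 / 2 * δ ^ 2 := by
  have hpi := pi_pos
  have huc : ∀ j, ContinuousOn (u j) (Icc 0 π) := fun j => (h.solution j).1
  have hum : ∀ j, MemLp (u j) 2 mu := fun j => memLp_of_continuousOn (huc j)
  obtain ⟨bu, hbu⟩ := exists_basis hum h.orthonormal h.complete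
  obtain ⟨be, hbe⟩ := exists_basis memLp_es es_orthonormal es_complete
  have hVu : ∀ j, MemLp (fun x => V x * u j x) 2 mu := fun j =>
    memLp_of_continuousOn (hV.continuousOn.mul (huc j))
  have hVe : ∀ j, MemLp (fun x => V x * es j x) 2 mu := fun j =>
    memLp_of_continuousOn (hV.continuousOn.mul (continuous_es j).continuousOn)
  have hnu1 : ∀ j, ‖(hum j).toLp (u j)‖ = 1 := fun j => by
    rw [← hbu]; exact bu.orthonormal.1 j
  have hne1 : ∀ j, ‖(memLp_es j).toLp (es j)‖ = 1 := fun j => by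
    rw [← hbe]; exact be.orthonormal.1 j
  have hkey : ∀ j k, (lam j - nu k) * ∫ x in Ioo 0 π, u j x * es k x
      = ∫ x in Ioo 0 π, V x * u j x * es k x := by
    intro j k
    have h1 := key_identity hV (h.solution j) (k + 1)
    have e1 : ∫ x in Ioo 0 π, u j x * es k x
        = √(2 / π) * ∫ x in Ioo 0 π, u j x * sin ((k + 1 : ℕ) * x) := by
      rw [← integral_const_mul]
      refine integral_congr_ae (Eventually.of_forall fun x => ?_)
      simp only [es]; ring
    have e2 : ∫ x in Ioo 0 π, V x * u j x * es k x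
        = √(2 / π) * ∫ x in Ioo 0 π, V x * u j x * sin ((k + 1 : ℕ) * x) := by
      rw [← integral_const_mul]
      refine integral_congr_ae (Eventually.of_forall fun x => ?_)
      simp only [es]; ring
    have e3 : ((k + 1 : ℕ) : ℝ) ^ 2 = nu k := by unfold nu; push_cast; ring
    rw [e3] at h1
    rw [e1, e2, ← h1]
    ring
  have hp := perturb be bu h.monotone hδ0 hδ1 (w := fun j => (hVu j).toLp _)
    (z := fun k => (hVe k).toLp _)
    (fun j => by
      have := norm_toLp_mul_le hVb (hum j) (hVu j)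
      rwa [hnu1, mul_one] at this)
    (fun k => by
      have := norm_toLp_mul_le hVb (memLp_es k) (hVe k)
      rwa [hne1, mul_one] at this)
    (fun j k => by
      rw [hbu, hbe, inner_toLp, inner_toLp]
      exact hkey j k)
    (fun j k => by
      rw [hbu, hbe, inner_toLp, inner_toLp, hkey]
      refine integral_congr_ae (Eventually.of_forall fun x => ?_)
      simp only; ring) j
  rw [hbu, hbe, inner_toLp] at hp
  set a := ∫ x, u j x * es j x ∂mu with ha
  -- the remainder
  have hrc : ContinuousOn (fun x => u j x - a * es j x) (Icc 0 π) :=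
    (huc j).sub (continuousOn_const.mul (continuous_es j).continuousOn)
  have hrm : MemLp (fun x => u j x - a * es j x) 2 mu := memLp_of_continuousOn hrc
  have hVr : MemLp (fun x => V x * (u j x - a * es j x)) 2 mu :=
    memLp_of_continuousOn (hV.continuousOn.mul hrc)
  have icont : ∀ {f : ℝ → ℝ}, ContinuousOn f (Icc 0 π) → Integrable f mu := fun hf =>
    (hf.integrableOn_Icc).mono_set Ioo_subset_Icc_self
  have hec : ContinuousOn (es j) (Icc 0 π) := (continuous_es j).continuousOn
  have hr2 : ‖hrm.toLp _‖ ^ 2 = 1 - a ^ 2 := by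
    rw [norm_sq_toLp]
    have e1 : ∀ x, (u j x - a * es j x) ^ 2
        = u j x * u j x - 2 * a * (u j x * es j x) + a ^ 2 * (es j x * es j x) := by intro x; ring
    simp_rw [e1]
    rw [integral_add, integral_sub, integral_const_mul, integral_const_mul, ← ha]
    · have o1 := h.orthonormal j j
      have o2 := es_orthonormal j j
      rw [if_pos rfl] at o1 o2
      rw [o1, o2]; ring
    · exact icont ((huc j).mul (huc j))
    · exact (icont ((huc j).mul hec)).const_mul _
    · exact (icont ((huc j).mul (huc j))).sub ((icont ((huc j).mul hec)).const_mul _)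
    · exact (icont (hec.mul hec)).const_mul _
  set ρ := ‖hrm.toLp _‖ with hρ
  have hρ0 : 0 ≤ ρ := norm_nonneg _
  have hρδ : ρ ≤ δ / 2 := by
    have : ρ ^ 2 ≤ (δ / 2) ^ 2 := by rw [hr2]; linarith
    exact (pow_le_pow_iff_left₀ hρ0 (by positivity) two_ne_zero).mp this
  have ha1 : |a| ≤ 1 := by
    have : a ^ 2 ≤ 1 := by nlinarith [sq_nonneg ρ]
    exact abs_le_one_iff_mul_self_le_one.mpr (by nlinarith)
  -- three integrals
  have I1 : |∫ x, V x * es j x ^ 2 ∂mu| ≤ δ := by
    have e1 : ∫ x, V x * es j x ^ 2 ∂mu = inner ℝ ((hVe j).toLp _) ((memLp_es j).toLp _) := by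
      rw [inner_toLp]
      refine integral_congr_ae (Eventually.of_forall fun x => ?_)
      simp only; ring
    rw [e1]
    refine (abs_real_inner_le_norm _ _).trans ?_
    have := norm_toLp_mul_le hVb (memLp_es j) (hVe j)
    rw [hne1] at this ⊢
    linarith
  have I2 : |∫ x, V x * es j x * (u j x - a * es j x) ∂mu| ≤ δ * ρ := by
    have e1 : ∫ x, V x * es j x * (u j x - a * es j x) ∂mu
        = inner ℝ ((hVe j).toLp _) (hrm.toLp _) := by rw [inner_toLp]
    rw [e1]
    refine (abs_real_inner_le_norm _ _).trans ?_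
    have := norm_toLp_mul_le hVb (memLp_es j) (hVe j)
    rw [hne1] at this
    rw [← hρ]
    nlinarith
  have I3 : |∫ x, V x * (u j x - a * es j x) * (u j x - a * es j x) ∂mu| ≤ δ * ρ ^ 2 := by
    have e1 : ∫ x, V x * (u j x - a * es j x) * (u j x - a * es j x) ∂mu
        = inner ℝ (hVr.toLp _) (hrm.toLp _) := by rw [inner_toLp]
    rw [e1]
    refine (abs_real_inner_le_norm _ _).trans ?_
    have := norm_toLp_mul_le hVb hrm hVr
    rw [← hρ] at this ⊢
    nlinarith
  have hVc : ContinuousOn V (Icc 0 π) := hV.continuousOn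
  have hsplit : potentialMean V 0 π (u j) - potentialMean V 0 π (es j)
      = (a ^ 2 - 1) * (∫ x, V x * es j x ^ 2 ∂mu)
        + 2 * a * (∫ x, V x * es j x * (u j x - a * es j x) ∂mu)
        + ∫ x, V x * (u j x - a * es j x) * (u j x - a * es j x) ∂mu := by
    unfold potentialMean
    have j1 : Integrable (fun x => V x * es j x ^ 2) mu := icont (hVc.mul (hec.pow 2))
    have j2 : Integrable (fun x => V x * es j x * (u j x - a * es j x)) mu :=
      icont ((hVc.mul hec).mul hrc)
    have j3 : Integrable (fun x => V x * (u j x - a * es j x) * (u j x - a * es j x)) mu :=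
      icont ((hVc.mul hrc).mul hrc)
    have j4 : Integrable (fun x => V x * u j x ^ 2) mu := icont (hVc.mul ((huc j).pow 2))
    have j5 : Integrable (fun x => (a ^ 2 - 1) * (V x * es j x ^ 2)
        + 2 * a * (V x * es j x * (u j x - a * es j x))) mu :=
      (j1.const_mul _).add (j2.const_mul _)
    rw [← integral_sub j4 j1, ← integral_const_mul, ← integral_const_mul,
      ← integral_add (j1.const_mul _) (j2.const_mul _), ← integral_add j5 j3]
    refine integral_congr_ae (Eventually.of_forall fun x => ?_)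
    simp only
    ring
  rw [hsplit]
  have b1 : |(a ^ 2 - 1) * (∫ x, V x * es j x ^ 2 ∂mu)| ≤ ρ ^ 2 * δ := by
    rw [abs_mul]
    have : |a ^ 2 - 1| = ρ ^ 2 := by
      rw [hr2, abs_of_nonpos (by nlinarith [sq_nonneg ρ])]; ring
    rw [this]
    gcongr
  have b2 : |2 * a * (∫ x, V x * es j x * (u j x - a * es j x) ∂mu)| ≤ 2 * (δ * ρ) := by
    rw [abs_mul, abs_mul, abs_two]
    have : |a| * |∫ x, V x * es j x * (u j x - a * es j x) ∂mu| ≤ 1 * (δ * ρ) := by gcongr
    linarith
  have b3 : |(a ^ 2 - 1) * (∫ x, V x * es j x ^ 2 ∂mu)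
        + 2 * a * (∫ x, V x * es j x * (u j x - a * es j x) ∂mu)
        + ∫ x, V x * (u j x - a * es j x) * (u j x - a * es j x) ∂mu|
      ≤ ρ ^ 2 * δ + 2 * (δ * ρ) + δ * ρ ^ 2 := by
    refine (abs_add_three _ _ _).trans ?_
    linarith
  refine b3.trans ?_
  have c1 : ρ ^ 2 ≤ (δ / 2) ^ 2 := by gcongr
  have c2 : δ * ρ ≤ δ * (δ / 2) := by gcongr
  have c3 : δ * ρ ^ 2 ≤ 1 * (δ / 2) ^ 2 := by gcongr
  nlinarith

end Pool.Agent.Lib.MP_490a28_an
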